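import Pool.Agent.TH549.Crit.FirstKind

/-!
# The configuration with a small critical exponent
-/

set_option autoImplicit false

open UpperHalfPlane Topology
open scoped ENNReal

namespace Pool.Agent.TH549.Crit

/-- The sizes used in the construction. -/
structure Sizes (s : ℝ) where
  t : ℕ → ℝ
  pos : ∀ i, 0 < t i
  lt : ∀ i, t i < 1
  small : ∀ i, t i ≤ 1 / ((i : ℝ) + 2)
  wt : ∀ i, (t i ^ 2) ^ s ≤ (1 - (1 / 9 : ℝ) ^ s) * (1 / 5) ^ i / 12

lemma kap_lt {s : ℝ} (hs : 0 < s) : (1 / 9 : ℝ) ^ s < 1 :=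
  Real.rpow_lt_one (by norm_num) (by norm_num) hs

lemma kap_pos (s : ℝ) : 0 < (1 / 9 : ℝ) ^ s := Real.rpow_pos_of_pos (by norm_num) s

lemma exists_sizes {s : ℝ} (hs : 0 < s) : Nonempty (Sizes s) := by
  have h1 := kap_lt hs
  let u : ℕ → ℝ := fun i => (1 - (1 / 9 : ℝ) ^ s) * (1 / 5) ^ i / 12
  have hu : ∀ i, 0 < u i := fun i => by
    have : 0 < 1 - (1 / 9 : ℝ) ^ s := by linarith
    positivity
  refine ⟨⟨fun i => min (1 / ((i : ℝ) + 2)) (u i ^ (1 / (2 * s))), ?_, ?_, ?_, ?_⟩⟩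
  · intro i
    exact lt_min (by positivity) (Real.rpow_pos_of_pos (hu i) _)
  · intro i
    refine lt_of_le_of_lt (min_le_left _ _) ?_
    rw [div_lt_one (by positivity)]
    have : (0 : ℝ) ≤ i := Nat.cast_nonneg i
    linarith
  · intro i
    exact min_le_left _ _
  · intro i
    have h2 : (0 : ℝ) < min (1 / ((i : ℝ) + 2)) (u i ^ (1 / (2 * s))) :=
      lt_min (by positivity) (Real.rpow_pos_of_pos (hu i) _)
    have h3 : (min (1 / ((i : ℝ) + 2)) (u i ^ (1 / (2 * s)))) ^ 2 ≤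
        (u i ^ (1 / (2 * s))) ^ 2 := pow_le_pow_left₀ h2.le (min_le_right _ _) 2
    refine (Real.rpow_le_rpow (by positivity) h3 hs.le).trans (le_of_eq ?_)
    rw [← Real.rpow_natCast, ← Real.rpow_mul (hu i).le, ← Real.rpow_mul (hu i).le]
    have : 1 / (2 * s) * ((2 : ℕ) : ℝ) * s = 1 := by
      push_cast
      field_simp
    rw [this, Real.rpow_one]

lemma exists_next {t : ℝ} (ht : 0 < t) (ht1 : t < 1) (q : ℚ) (n : ℕ) (f : Fin n → Disk) :
    ∃ D : Disk, D.r ≤ t ∧ D.Away ∧ (∀ j, D.r ≤ t * (|D.c - (f j).c| - (f j).r)) ∧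
      (∀ j, (f j).r + D.r < |D.c - (f j).c|) ∧
      (q ≠ 0 → (∃ j, |(q : ℝ) - (f j).c| ≤ (f j).r) ∨ |(q : ℝ) - D.c| ≤ D.r) := by
  have hc : ∃ c : ℝ, c ≠ 0 ∧ (∀ j, (f j).r < |c - (f j).c|) ∧
      (q ≠ 0 → (∃ j, |(q : ℝ) - (f j).c| ≤ (f j).r) ∨ (q : ℝ) = c) := by
    by_cases hq : q ≠ 0 ∧ ∀ j, (f j).r < |(q : ℝ) - (f j).c|
    · exact ⟨q, by exact_mod_cast hq.1, hq.2, fun _ => Or.inr rfl⟩
    · have h1 : ∀ᶠ c in Filter.atTop, ∀ j, (f j).c + (f j).r < c :=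
        Filter.eventually_all.mpr fun j => Filter.eventually_gt_atTop _
      obtain ⟨c, hc1, hc2⟩ := (h1.and (Filter.eventually_gt_atTop (0 : ℝ))).exists
      refine ⟨c, hc2.ne', fun j => ?_, fun hq0 => Or.inl ?_⟩
      · have h2 := hc1 j
        exact lt_of_lt_of_le (by linarith) (le_abs_self _)
      · by_contra hcon
        push Not at hcon
        exact hq ⟨hq0, hcon⟩
  obtain ⟨c, hc0, hc1, hc2⟩ := hc
  have h1 : ∀ᶠ δ in 𝓝[>] (0 : ℝ), ∀ j, δ < |c - (f j).c| - (f j).r := by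
    rw [Filter.eventually_all]
    intro j
    exact (Filter.tendsto_id.mono_left nhdsWithin_le_nhds).eventually
      (gt_mem_nhds (by have := hc1 j; linarith))
  have h2 : ∀ᶠ δ in 𝓝[>] (0 : ℝ), δ < |c| / 2 :=
    (Filter.tendsto_id.mono_left nhdsWithin_le_nhds).eventually
      (gt_mem_nhds (by have := abs_pos.mpr hc0; positivity))
  have h3 : ∀ᶠ δ in 𝓝[>] (0 : ℝ), δ < 1 :=
    (Filter.tendsto_id.mono_left nhdsWithin_le_nhds).eventually (gt_mem_nhds one_pos)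
  have h4 : ∀ᶠ δ in 𝓝[>] (0 : ℝ), 0 < δ := self_mem_nhdsWithin
  obtain ⟨δ, h1, h2, h3, h4⟩ := (h1.and (h2.and (h3.and h4))).exists
  refine ⟨⟨c, t * δ, by positivity⟩, ?_, ?_, ?_, ?_, ?_⟩
  · change t * δ ≤ t
    nlinarith
  · change 2 * (t * δ) ≤ |c|
    nlinarith
  · intro j
    change t * δ ≤ t * (|c - (f j).c| - (f j).r)
    exact mul_le_mul_of_nonneg_left (h1 j).le ht.le
  · intro j
    change (f j).r + t * δ < |c - (f j).c|
    have := h1 j
    nlinarith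
  · intro hq
    rcases hc2 hq with h | h
    · exact Or.inl h
    · right
      change |(q : ℝ) - c| ≤ t * δ
      rw [h, sub_self, abs_zero]
      positivity

namespace Sizes

variable {s : ℝ} (Z : Sizes s) (q : ℕ → ℚ)

/-- the sequence of half disks -/
noncomputable def dsk : ℕ → Disk
  | 0 => ⟨-1, 1 / 4, by norm_num⟩
  | 1 => ⟨-2, 1 / 4, by norm_num⟩
  | 2 => ⟨Z.t 2, Z.t 2 / 4, by have := Z.pos 2; positivity⟩
  | n + 3 => Classical.choose (exists_next (Z.pos (n + 3)) (Z.lt (n + 3)) (q n) (n + 3)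
      (fun j : Fin (n + 3) => dsk j.1))
termination_by n => n
decreasing_by all_goals exact j.2

lemma dsk_zero : Z.dsk q 0 = ⟨-1, 1 / 4, by norm_num⟩ := by rw [dsk]

lemma dsk_one : Z.dsk q 1 = ⟨-2, 1 / 4, by norm_num⟩ := by rw [dsk]

lemma dsk_two : Z.dsk q 2 = ⟨Z.t 2, Z.t 2 / 4, by have := Z.pos 2; positivity⟩ := by rw [dsk]

lemma dsk_spec (n : ℕ) :
    (Z.dsk q (n + 3)).r ≤ Z.t (n + 3) ∧ (Z.dsk q (n + 3)).Away ∧
    (∀ j < n + 3, (Z.dsk q (n + 3)).r ≤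
      Z.t (n + 3) * (|(Z.dsk q (n + 3)).c - (Z.dsk q j).c| - (Z.dsk q j).r)) ∧
    (∀ j < n + 3, (Z.dsk q j).r + (Z.dsk q (n + 3)).r < |(Z.dsk q (n + 3)).c - (Z.dsk q j).c|) ∧
    (q n ≠ 0 → ∃ j, |(q n : ℝ) - (Z.dsk q j).c| ≤ (Z.dsk q j).r) := by
  have h := Classical.choose_spec (exists_next (Z.pos (n + 3)) (Z.lt (n + 3)) (q n) (n + 3)
      (fun j : Fin (n + 3) => Z.dsk q j.1))
  have e : Z.dsk q (n + 3) = Classical.choose (exists_next (Z.pos (n + 3)) (Z.lt (n + 3)) (q n)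
      (n + 3) (fun j : Fin (n + 3) => Z.dsk q j.1)) := by
    rw [dsk]
  rw [← e] at h
  obtain ⟨h1, h2, h3, h4, h5⟩ := h
  refine ⟨h1, h2, fun j hj => h3 ⟨j, hj⟩, fun j hj => h4 ⟨j, hj⟩, fun hq => ?_⟩
  rcases h5 hq with ⟨j, hj⟩ | h
  · exact ⟨j.1, hj⟩
  · exact ⟨n + 3, h⟩

lemma dsk_away (n : ℕ) : (Z.dsk q n).Away := by
  match n with
  | 0 => rw [dsk_zero]; unfold Disk.Away; norm_num
  | 1 => rw [dsk_one]; unfold Disk.Away; norm_num
  | 2 =>
    rw [dsk_two]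
    change 2 * (Z.t 2 / 4) ≤ |Z.t 2|
    have := Z.pos 2
    rw [abs_of_pos this]
    linarith
  | n + 3 => exact (Z.dsk_spec q n).2.1

lemma dsk_r_le {n : ℕ} (hn : 2 ≤ n) : (Z.dsk q n).r ≤ Z.t n := by
  match n, hn with
  | 2, _ =>
    rw [dsk_two]
    change Z.t 2 / 4 ≤ Z.t 2
    have := Z.pos 2
    linarith
  | n + 3, _ => exact (Z.dsk_spec q n).1

lemma dsk_gap {n j : ℕ} (hn : 2 ≤ n) (hj : j < n) :
    (Z.dsk q n).r ≤ Z.t n * (|(Z.dsk q n).c - (Z.dsk q j).c| - (Z.dsk q j).r) := by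
  match n, hn with
  | 2, _ =>
    have h2 := Z.pos 2
    rw [dsk_two]
    match j, hj with
    | 0, _ =>
      rw [dsk_zero]
      change Z.t 2 / 4 ≤ Z.t 2 * (|Z.t 2 - (-1)| - 1 / 4)
      rw [abs_of_pos (by linarith)]
      nlinarith
    | 1, _ =>
      rw [dsk_one]
      change Z.t 2 / 4 ≤ Z.t 2 * (|Z.t 2 - (-2)| - 1 / 4)
      rw [abs_of_pos (by linarith)]
      nlinarith
  | n + 3, _ => exact (Z.dsk_spec q n).2.2.1 j hj

lemma dsk_disj_lt {n j : ℕ} (hj : j < n) :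
    (Z.dsk q j).r + (Z.dsk q n).r < |(Z.dsk q n).c - (Z.dsk q j).c| := by
  match n with
  | 0 => omega
  | 1 =>
    have : j = 0 := by omega
    subst this
    rw [dsk_zero, dsk_one]
    norm_num
  | 2 =>
    have h2 := Z.pos 2
    rw [dsk_two]
    match j, hj with
    | 0, _ =>
      rw [dsk_zero]
      change 1 / 4 + Z.t 2 / 4 < |Z.t 2 - (-1)|
      rw [abs_of_pos (by linarith)]
      linarith
    | 1, _ =>
      rw [dsk_one]
      change 1 / 4 + Z.t 2 / 4 < |Z.t 2 - (-2)|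
      rw [abs_of_pos (by linarith)]
      linarith
  | n + 3 => exact (Z.dsk_spec q n).2.2.2.1 j hj

/-- the configuration -/
noncomputable def config : Config where
  D := Z.dsk q
  disj n m hnm := by
    rcases lt_or_gt_of_ne hnm with h | h
    · have := Z.dsk_disj_lt q h
      rw [abs_sub_comm]
      exact this
    · have := Z.dsk_disj_lt q h
      linarith
  fin δ hδ := by
    obtain ⟨N, hN⟩ := exists_nat_gt (1 / δ)
    refine (Set.finite_Iio (N + 2)).subset ?_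
    intro n hn
    by_contra hcon
    have hn2 : N + 2 ≤ n := not_lt.mp hcon
    have h1 : δ ≤ (Z.dsk q n).r := hn
    have h2 := Z.dsk_r_le q (n := n) (by omega)
    have h3 := Z.small n
    have h4 : (N : ℝ) + 2 ≤ n := by exact_mod_cast hn2
    have h5 : δ ≤ 1 / ((n : ℝ) + 2) := by linarith
    rw [le_div_iff₀ (by positivity)] at h5
    rw [div_lt_iff₀ hδ] at hN
    nlinarith

lemma config_D (n : ℕ) : (Z.config q).D n = Z.dsk q n := rfl

end Sizes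

end Pool.Agent.TH549.Crit
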