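import Pool.Agent.TH549.Crit.Refl

/-!
# Configurations of infinitely many disjoint half disks
-/

set_option autoImplicit false

open UpperHalfPlane Topology
open scoped MatrixGroups

namespace Pool.Agent.TH549.Crit

/-- Pairwise disjoint closed half disks, only finitely many of which are large. -/
structure Config where
  D : ℕ → Disk
  disj : ∀ n m, n ≠ m → (D n).r + (D m).r < |(D n).c - (D m).c|
  fin : ∀ δ : ℝ, 0 < δ → {n | δ ≤ (D n).r}.Finite

namespace Config

variable (C : Config)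

/-- The complement of the open half disks. -/
def F : Set ℍ := {z | ∀ n, ¬ (C.D n).inside z}

/-- Points of a half disk are far from the other centres. -/
lemma far {n m : ℕ} {z : ℍ} (h : (C.D m).closed z) (hnm : n ≠ m) :
    (|(C.D n).c - (C.D m).c| - (C.D m).r) ^ 2 ≤ (C.D n).nsq z := by
  have h0 := C.disj n m hnm
  have hn := (C.D n).pos
  have hm := (C.D m).pos
  have h1 : (z.re - (C.D m).c) ^ 2 + z.im ^ 2 ≤ (C.D m).r ^ 2 := h
  change _ ≤ (z.re - (C.D n).c) ^ 2 + z.im ^ 2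
  set a := (C.D n).c
  set b := (C.D m).c
  set r := (C.D m).r
  set x := z.re
  set y := z.im
  -- |x - b| ≤ √(r² - y²)
  have h2 : |x - b| ^ 2 ≤ r ^ 2 - y ^ 2 := by rw [sq_abs]; linarith
  have h3 : |a - b| - |x - b| ≤ |x - a| := by
    have := abs_sub_abs_le_abs_sub (a - b) (x - b)
    have h5 : (a - b) - (x - b) = -(x - a) := by ring
    rw [h5, abs_neg] at this
    exact this
  have h4 : |x - b| ≤ r := by
    have : |x - b| ^ 2 ≤ r ^ 2 := by nlinarith [sq_nonneg y]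
    exact (abs_le_of_sq_le_sq' this hm.le).2
  have h6 : 0 ≤ |a - b| - |x - b| := by linarith
  have h7 : (|a - b| - |x - b|) ^ 2 ≤ |x - a| ^ 2 := pow_le_pow_left₀ h6 h3 2
  rw [sq_abs] at h7
  nlinarith [abs_nonneg (x - b)]

lemma not_closed_of_closed {n m : ℕ} {z : ℍ} (h : (C.D m).closed z) (hnm : n ≠ m) :
    ¬ (C.D n).closed z := by
  have h1 := C.far h hnm
  have h0 := C.disj n m hnm
  have hn := (C.D n).pos
  intro h2
  have h3 : (C.D n).nsq z ≤ (C.D n).r ^ 2 := h2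
  nlinarith

lemma not_inside_of_closed {n m : ℕ} {z : ℍ} (h : (C.D m).closed z) (hnm : n ≠ m) :
    ¬ (C.D n).inside z := fun h' => C.not_closed_of_closed h hnm h'.closed

lemma index_unique {n m : ℕ} {z : ℍ} (h : (C.D n).closed z) (h' : (C.D m).closed z) : n = m := by
  by_contra hne
  exact C.not_closed_of_closed h' hne h

/-- the unfolding of a point ends in `F` after `k` steps -/
def steps : ℕ → ℍ → Prop
  | 0, z => z ∈ C.F
  | k + 1, z => ∃ n, (C.D n).inside z ∧ steps k ((C.D n).refl z)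

lemma radius_bdd : ∃ R : ℝ, 0 < R ∧ ∀ n, (C.D n).r ≤ R := by
  have h := (C.fin 1 one_pos)
  obtain ⟨B, hB⟩ := (h.image (fun n => (C.D n).r)).bddAbove
  refine ⟨max 1 B, lt_max_of_lt_left one_pos, fun n => ?_⟩
  by_cases hn : 1 ≤ (C.D n).r
  · exact le_max_of_le_right (hB ⟨n, hn, rfl⟩)
  · exact le_max_of_le_left (not_le.mp hn).le

/-- uniform expansion between large disks -/
lemma exists_expansion (δ : ℝ) (hδ : 0 < δ) : ∃ ρ : ℝ, 1 < ρ ∧ ∀ n m, n ≠ m → δ ≤ (C.D n).r →
    δ ≤ (C.D m).r → ρ * (C.D n).r ≤ |(C.D n).c - (C.D m).c| - (C.D m).r := by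
  have hfin := C.fin δ hδ
  let A : Set (ℕ × ℕ) := {p | p.1 ≠ p.2 ∧ p.1 ∈ {n | δ ≤ (C.D n).r} ∧ p.2 ∈ {n | δ ≤ (C.D n).r}}
  have hA : A.Finite := (hfin.prod hfin).subset (fun p hp => ⟨hp.2.1, hp.2.2⟩)
  let g : ℕ × ℕ → ℝ := fun p => (|(C.D p.1).c - (C.D p.2).c| - (C.D p.2).r) / (C.D p.1).r
  have hg : ∀ p ∈ A, 1 < g p := by
    intro p hp
    have := C.disj p.1 p.2 hp.1
    rw [one_lt_div (C.D p.1).pos]
    linarith
  rcases A.eq_empty_or_nonempty with he | hne
  · refine ⟨2, one_lt_two, fun n m hnm hn hm => ?_⟩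
    have : (n, m) ∈ A := ⟨hnm, hn, hm⟩
    rw [he] at this
    exact this.elim
  · obtain ⟨p, hp, hmin⟩ := hA.exists_minimalFor g A hne
    refine ⟨g p, hg p hp, fun n m hnm hn hm => ?_⟩
    have h1 : g p ≤ g (n, m) := by
      rcases le_total (g p) (g (n, m)) with h | h
      · exact h
      · exact hmin ⟨hnm, hn, hm⟩ h
    have h2 := (le_div_iff₀ (C.D n).pos).mp h1
    exact h2

/-- **Termination of the unfolding.** -/
theorem exists_steps (z : ℍ) : ∃ k, C.steps k z := by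
  by_contra hz
  let Bad : Set ℍ := {z | ¬ ∃ k, C.steps k z}
  have hzB : z ∈ Bad := hz
  have hstep : ∀ z ∈ Bad, ∃ n, (C.D n).inside z ∧ (C.D n).refl z ∈ Bad := by
    intro z hz
    have h0 : z ∉ C.F := fun h => hz ⟨0, h⟩
    simp only [F, Set.mem_setOf_eq, not_forall, not_not] at h0
    obtain ⟨n, hn⟩ := h0
    refine ⟨n, hn, ?_⟩
    rintro ⟨k, hk⟩
    exact hz ⟨k + 1, n, hn, hk⟩
  obtain ⟨R, hR, hRb⟩ := C.radius_bdd
  let S : Set ℝ := (fun z : ℍ => z.im) '' Bad
  have hSb : BddAbove S := by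
    refine ⟨R, ?_⟩
    rintro _ ⟨w, hw, rfl⟩
    obtain ⟨n, hn, _⟩ := hstep w hw
    exact ((C.D n).im_le_of_closed hn.closed).trans (hRb n)
  have hSne : S.Nonempty := ⟨z.im, z, hzB, rfl⟩
  set Y := sSup S with hY
  have hYpos : 0 < Y := lt_of_lt_of_le z.im_pos (le_csSup hSb ⟨z, hzB, rfl⟩)
  obtain ⟨ρ, hρ, hexp⟩ := C.exists_expansion (Y / 2) (half_pos hYpos)
  have hρ2 : 1 < ρ ^ 2 := one_lt_pow₀ hρ two_ne_zero
  have hlt : max (Y / 2) (Y / ρ ^ 2) < Y :=
    max_lt (half_lt_self hYpos) (div_lt_self hYpos hρ2)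
  obtain ⟨_, ⟨w, hw, rfl⟩, hw2⟩ := exists_lt_of_lt_csSup hSne hlt
  simp only at hw2
  obtain ⟨n, hn, hn'⟩ := hstep w hw
  obtain ⟨m, hm, _⟩ := hstep _ hn'
  have hnm : n ≠ m := by
    rintro rfl
    exact ((C.D n).inside_refl_iff w).mp hm hn.closed
  have e1 : ((C.D n).refl w).im = w.im * ((C.D n).nsq ((C.D n).refl w) / (C.D n).r ^ 2) := by
    rw [(C.D n).refl_im, (C.D n).nsq_refl]
    have h1 := ((C.D n).nsq_pos w).ne'
    have h2 := (C.D n).pos.ne'
    field_simp
  have hbig : Y / 2 < w.im := lt_of_le_of_lt (le_max_left _ _) hw2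
  have hwn : w.im ≤ (C.D n).r := (C.D n).im_le_of_closed hn.closed
  have hfar := C.far hm.closed hnm
  have hge1 : 1 ≤ (C.D n).nsq ((C.D n).refl w) / (C.D n).r ^ 2 := by
    rw [one_le_div (by have := (C.D n).pos; positivity)]
    exact not_lt.mp (fun h => (C.not_inside_of_closed hm.closed hnm) h)
  have hwm : w.im ≤ (C.D m).r := by
    have h1 := (C.D m).im_le_of_closed hm.closed
    rw [e1] at h1
    nlinarith [w.im_pos]
  have h3 := hexp n m hnm (by linarith) (by linarith)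
  have h4 : ρ ^ 2 ≤ (C.D n).nsq ((C.D n).refl w) / (C.D n).r ^ 2 := by
    rw [le_div_iff₀ (by have := (C.D n).pos; positivity), ← mul_pow]
    exact (pow_le_pow_left₀ (by have := (C.D n).pos; positivity) h3 2).trans hfar
  have h5 : Y < ((C.D n).refl w).im := by
    rw [e1]
    have h6 : Y / ρ ^ 2 < w.im := lt_of_le_of_lt (le_max_right _ _) hw2
    rw [div_lt_iff₀ (by positivity)] at h6
    nlinarith [w.im_pos]
  exact absurd (le_csSup hSb ⟨_, hn', rfl⟩) (not_le.mpr h5)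

/-- Local finiteness: near a point one only meets the closed half disks through the point. -/
theorem local_finite (p : ℍ) : ∀ᶠ a in 𝓝 p, ∀ n, (C.D n).closed a → (C.D n).closed p := by
  have h1 : ∀ᶠ a in 𝓝 p, p.im / 2 < a.im :=
    (UpperHalfPlane.continuous_im.tendsto p).eventually (lt_mem_nhds (half_lt_self p.im_pos))
  have hfin := C.fin (p.im / 2) (half_pos p.im_pos)
  have h2 : ∀ᶠ a in 𝓝 p, ∀ n ∈ {n | p.im / 2 ≤ (C.D n).r}, (C.D n).closed a →
      (C.D n).closed p := by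
    rw [Filter.eventually_all_finite hfin]
    intro n _
    by_cases hp : (C.D n).closed p
    · exact Filter.Eventually.of_forall fun a _ => hp
    · have : {a | ¬ (C.D n).closed a} ∈ 𝓝 p := (C.D n).isClosed_closed.isOpen_compl.mem_nhds hp
      filter_upwards [this] with a ha h
      exact absurd h ha
  filter_upwards [h1, h2] with a ha1 ha2 n hn
  exact ha2 n (le_of_lt (lt_of_lt_of_le ha1 ((C.D n).im_le_of_closed hn))) hn

end Config

end Pool.Agent.TH549.Crit
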