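import Pool.Agent.TH549.Crit.Lower

/-!
# Discreteness
-/

set_option autoImplicit false

open UpperHalfPlane Topology
open scoped MatrixGroups

namespace Pool.Agent.TH549.Crit

/-- A Fuchsian group: a group of transformations given by matrices in `SL(2, ℝ)` whose full
preimage in `SL(2, ℝ)` is discrete. -/
def IsFuchsian (G : Subgroup (Equiv.Perm ℍ)) : Prop :=
  G ≤ PSL ∧ DiscreteTopology (G.comap (MulAction.toPermHom SL(2, ℝ) ℍ))

lemma smul_trivial {A : SL(2, ℝ)} (h : ∀ z : ℍ, A • z = z) : A = 1 ∨ A = -1 := by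
  have key : ∀ t : ℝ, 0 < t → A 0 1 = -(t ^ 2 * A 1 0) ∧ A 0 0 = A 1 1 := by
    intro t ht
    have h1 := congrArg (fun z : ℍ => (z : ℂ)) (h ⟨⟨0, t⟩, ht⟩)
    simp only [coe_specialLinearGroup_apply, Algebra.algebraMap_self, RingHom.id_apply] at h1
    have hne := denom_ne_zero (A : GL (Fin 2) ℝ) ⟨⟨0, t⟩, ht⟩
    have hden : ((A 1 0 : ℝ) : ℂ) * ((⟨⟨0, t⟩, ht⟩ : ℍ) : ℂ) + ((A 1 1 : ℝ) : ℂ) ≠ 0 := by
      exact hne
    rw [div_eq_iff hden] at h1
    have h2 := congrArg Complex.re h1
    have h3 := congrArg Complex.im h1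
    simp at h2 h3
    constructor
    · nlinarith
    · have h4 : t * (A 0 0 - A 1 1) = 0 := by linarith
      rcases mul_eq_zero.mp h4 with h5 | h5
      · exact absurd h5 ht.ne'
      · linarith
  obtain ⟨h1, h2⟩ := key 1 one_pos
  obtain ⟨h3, _⟩ := key 2 two_pos
  have h4 : A 1 0 = 0 := by linarith
  have h5 : A 0 1 = 0 := by rw [h1, h4]; ring
  have h6 := A.det_coe
  rw [Matrix.det_fin_two] at h6
  have h7 : (A 0 0 - 1) * (A 0 0 + 1) = 0 := by
    have h8 : (A : Matrix (Fin 2) (Fin 2) ℝ) 0 0 * (A : Matrix (Fin 2) (Fin 2) ℝ) 1 1 -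
      (A : Matrix (Fin 2) (Fin 2) ℝ) 0 1 * (A : Matrix (Fin 2) (Fin 2) ℝ) 1 0 = 1 := h6
    rw [h4, ← h2] at h8
    linarith
  rcases mul_eq_zero.mp h7 with h8 | h8
  · left
    have h9 : A 0 0 = 1 := by linarith
    ext i j
    fin_cases i <;> fin_cases j
    · simpa using h9
    · simpa using h5
    · simpa using h4
    · have : A 1 1 = 1 := by rw [← h2]; exact h9
      simpa using this
  · right
    have h9 : A 0 0 = -1 := by linarith
    ext i j
    fin_cases i <;> fin_cases j
    · simpa using h9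
    · simpa using h5
    · simpa using h4
    · have : A 1 1 = -1 := by rw [← h2]; exact h9
      simpa using this

/-- Discreteness from the convergence of one Poincaré series. -/
theorem discrete_of_summable {G : Subgroup (Equiv.Perm ℍ)} {s : ℝ} (hs : 0 < s)
    (h : Summable fun g : G => Real.exp (-s * dist I ((g : Equiv.Perm ℍ) I))) :
    DiscreteTopology (G.comap (MulAction.toPermHom SL(2, ℝ) ℍ)) := by
  have hfin : {g : G | dist I ((g : Equiv.Perm ℍ) I) < 1}.Finite := by
    have h1 := h.tendsto_cofinite_zero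
    have h2 : ∀ᶠ g : G in Filter.cofinite,
        Real.exp (-s * dist I ((g : Equiv.Perm ℍ) I)) < Real.exp (-s) :=
      h1.eventually (gt_mem_nhds (Real.exp_pos _))
    rw [Filter.eventually_cofinite] at h2
    refine h2.subset fun g hg => ?_
    have h3 : dist I ((g : Equiv.Perm ℍ) I) < 1 := hg
    change ¬ _
    rw [not_lt]
    apply Real.exp_le_exp.mpr
    nlinarith
  have hfin2 : {g : Equiv.Perm ℍ | g ∈ G ∧ dist I (g I) < 1}.Finite := by
    refine (hfin.image Subtype.val).subset ?_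
    rintro g ⟨hg, hd⟩
    exact ⟨⟨g, hg⟩, hd, rfl⟩
  have hfin3 : {A : SL(2, ℝ) | MulAction.toPermHom SL(2, ℝ) ℍ A ∈ G ∧ dist I (A • I) < 1}.Finite := by
    refine (hfin2.preimage' (f := fun A : SL(2, ℝ) => MulAction.toPermHom SL(2, ℝ) ℍ A)
      (fun b _ => ?_)).subset ?_
    · rcases Set.eq_empty_or_nonempty
        ((fun A : SL(2, ℝ) => MulAction.toPermHom SL(2, ℝ) ℍ A) ⁻¹' {b}) with he | ⟨A₀, hA₀⟩
      · rw [he]; exact Set.finite_empty
      · refine (Set.Finite.insert A₀ (Set.finite_singleton (A₀ * -1))).subset ?_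
        intro A hA
        have h1 : MulAction.toPermHom SL(2, ℝ) ℍ A = b := hA
        have h2 : MulAction.toPermHom SL(2, ℝ) ℍ A₀ = b := hA₀
        have h3 : ∀ z : ℍ, (A₀⁻¹ * A) • z = z := by
          intro z
          have h4 : MulAction.toPermHom SL(2, ℝ) ℍ (A₀⁻¹ * A) = 1 := by
            rw [map_mul, map_inv, h1, h2, inv_mul_cancel]
          have h5 := congrArg (fun e : Equiv.Perm ℍ => e z) h4
          exact h5
        rcases smul_trivial h3 with h4 | h4
        · left
          rw [inv_mul_eq_one] at h4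
          exact h4.symm
        · right
          rw [Set.mem_singleton_iff, ← h4, mul_inv_cancel_left]
    · rintro A ⟨hA, hd⟩
      exact ⟨hA, hd⟩
  apply discreteTopology_of_isOpen_singleton_one
  have hcont : Continuous fun A : SL(2, ℝ) => dist I (A • I) :=
    continuous_const.dist (continuous_id.smul continuous_const)
  have hU : IsOpen {A : SL(2, ℝ) | dist I (A • I) < 1} := isOpen_lt hcont continuous_const
  set S := {A : SL(2, ℝ) | MulAction.toPermHom SL(2, ℝ) ℍ A ∈ G ∧ dist I (A • I) < 1} with hS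
  have hV : IsOpen ({A : SL(2, ℝ) | dist I (A • I) < 1} \ (S \ {1})) :=
    hU.sdiff (hfin3.subset Set.diff_subset).isClosed
  have hpre : ({1} : Set (G.comap (MulAction.toPermHom SL(2, ℝ) ℍ))) =
      Subtype.val ⁻¹' ({A : SL(2, ℝ) | dist I (A • I) < 1} \ (S \ {1})) := by
    ext A
    constructor
    · intro hA
      rw [Set.mem_singleton_iff] at hA
      subst hA
      refine ⟨?_, fun h => h.2 rfl⟩
      change dist I ((1 : SL(2, ℝ)) • I) < 1
      rw [one_smul, dist_self]
      exact one_pos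
    · rintro ⟨h1, h2⟩
      by_contra h3
      refine h2 ⟨⟨A.2, h1⟩, ?_⟩
      intro h4
      exact h3 (Subtype.ext h4)
  rw [hpre]
  exact hV.preimage continuous_subtype_val

end Pool.Agent.TH549.Crit
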