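import Pool.Agent.TH549.Crit.Config

/-!
# Extending a map between fundamental domains by reflections
-/

set_option autoImplicit false

open UpperHalfPlane Topology

namespace Pool.Agent.TH549.Crit

/-- A bijection of the upper half plane which matches the half disks of two configurations. -/
structure Compat (C C' : Config) where
  σ : ℍ ≃ ℍ
  inside_iff : ∀ n z, (C'.D n).inside (σ z) ↔ (C.D n).inside z
  closed_iff : ∀ n z, (C'.D n).closed (σ z) ↔ (C.D n).closed z

namespace Compat

variable {C C' : Config} (P : Compat C C')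

/-- the inverse -/
def symm : Compat C' C where
  σ := P.σ.symm
  inside_iff n z := by rw [← P.inside_iff, Equiv.apply_symm_apply]
  closed_iff n z := by rw [← P.closed_iff, Equiv.apply_symm_apply]

/-- The graph of the extension. -/
inductive Rel : ℍ → ℍ → Prop
  | base (z : ℍ) : z ∈ C.F → Rel z (P.σ z)
  | step (n : ℕ) (z y : ℍ) : (C.D n).inside z → Rel ((C.D n).refl z) y → Rel z ((C'.D n).refl y)

lemma Rel.iff {z y : ℍ} (h : P.Rel z y) :
    (∀ n, (C'.D n).inside y ↔ (C.D n).inside z) ∧ (∀ n, (C'.D n).closed y ↔ (C.D n).closed z) := by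
  induction h with
  | base z hz => exact ⟨fun n => P.inside_iff n z, fun n => P.closed_iff n z⟩
  | step n z y hn _ ih =>
    have h1 : ¬ (C.D n).closed ((C.D n).refl z) := by
      rw [(C.D n).closed_refl_iff]; exact not_not.mpr hn
    have h2 : ¬ (C'.D n).closed y := by rw [ih.2 n]; exact h1
    have h3 : (C'.D n).inside ((C'.D n).refl y) := by rw [(C'.D n).inside_refl_iff]; exact h2
    constructor
    · intro m
      by_cases hm : m = n
      · subst hm
        exact ⟨fun _ => hn, fun _ => h3⟩
      · constructor
        · intro h; exact absurd h (C'.not_inside_of_closed h3.closed hm)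
        · intro h; exact absurd h (C.not_inside_of_closed hn.closed hm)
    · intro m
      by_cases hm : m = n
      · subst hm
        exact ⟨fun _ => hn.closed, fun _ => h3.closed⟩
      · constructor
        · intro h; exact absurd h (C'.not_closed_of_closed h3.closed hm)
        · intro h; exact absurd h (C.not_closed_of_closed hn.closed hm)

lemma Rel.exists (z : ℍ) : ∃ y, P.Rel z y := by
  obtain ⟨k, hk⟩ := C.exists_steps z
  induction k generalizing z with
  | zero => exact ⟨_, Rel.base z hk⟩
  | succ k ih =>
    obtain ⟨n, hn, hk⟩ := hk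
    obtain ⟨y, hy⟩ := ih _ hk
    exact ⟨_, Rel.step n z y hn hy⟩

lemma Rel.unique {z y y' : ℍ} (h : P.Rel z y) (h' : P.Rel z y') : y = y' := by
  induction h generalizing y' with
  | base z hz =>
    cases h' with
    | base => rfl
    | step n _ y hn _ => exact absurd hn (hz n)
  | step n z y hn _ ih =>
    cases h' with
    | base _ hz => exact absurd hn (hz n)
    | step m _ y' hm h' =>
      have : n = m := C.index_unique hn.closed hm.closed
      subst this
      rw [ih h']

lemma Rel.symm {z y : ℍ} (h : P.Rel z y) : P.symm.Rel y z := by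
  induction h with
  | base z hz =>
    have h1 : P.σ z ∈ C'.F := fun n hn => hz n ((P.inside_iff n z).mp hn)
    have h2 := Rel.base (P := P.symm) (P.σ z) h1
    have h3 : P.symm.σ (P.σ z) = z := P.σ.symm_apply_apply z
    rwa [h3] at h2
  | step n z y hn h ih =>
    have h1 : ¬ (C.D n).closed ((C.D n).refl z) := by
      rw [(C.D n).closed_refl_iff]; exact not_not.mpr hn
    have h2 : ¬ (C'.D n).closed y := by rw [(h.iff).2 n]; exact h1
    have h3 : (C'.D n).inside ((C'.D n).refl y) := by rw [(C'.D n).inside_refl_iff]; exact h2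
    have h4 : P.symm.Rel ((C'.D n).refl ((C'.D n).refl y)) ((C.D n).refl z) := by
      rw [Disk.refl_refl]; exact ih
    have h5 := Rel.step (P := P.symm) n _ _ h3 h4
    rwa [Disk.refl_refl] at h5

/-- the value of the extension -/
noncomputable def val (z : ℍ) : ℍ := Classical.choose (Rel.exists P z)

lemma rel_val (z : ℍ) : P.Rel z (P.val z) := Classical.choose_spec (Rel.exists P z)

lemma symm_val_val (z : ℍ) : P.symm.val (P.val z) = z :=
  (P.symm.rel_val (P.val z)).unique _ (P.rel_val z).symm

lemma symm_symm : P.symm.symm = P := rfl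

/-- **The extension**, a bijection of the upper half plane. -/
noncomputable def ext : ℍ ≃ ℍ where
  toFun := P.val
  invFun := P.symm.val
  left_inv := P.symm_val_val
  right_inv := P.symm.symm_val_val

lemma ext_apply (z : ℍ) : P.ext z = P.val z := rfl

lemma ext_symm_apply (z : ℍ) : P.ext.symm z = P.symm.val z := rfl

lemma val_of_mem {z : ℍ} (hz : z ∈ C.F) : P.val z = P.σ z :=
  (P.rel_val z).unique _ (Rel.base z hz)

lemma val_of_inside {n : ℕ} {z : ℍ} (hz : (C.D n).inside z) :
    P.val z = (C'.D n).refl (P.val ((C.D n).refl z)) :=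
  (P.rel_val z).unique _ (Rel.step n z _ hz (P.rel_val _))

/-- The extension conjugates the reflections. -/
lemma val_refl (n : ℕ) (z : ℍ) : P.val ((C.D n).refl z) = (C'.D n).refl (P.val z) := by
  by_cases h : (C.D n).inside z
  · rw [P.val_of_inside h, Disk.refl_refl]
  · by_cases h' : (C.D n).closed z
    · have h1 := (C.D n).refl_eq_of_closed_not_inside h' h
      have h2 := P.rel_val z
      have h3 : (C'.D n).closed (P.val z) := (h2.iff.2 n).mpr h'
      have h4 : ¬ (C'.D n).inside (P.val z) := fun h5 => h ((h2.iff.1 n).mp h5)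
      rw [h1, (C'.D n).refl_eq_of_closed_not_inside h3 h4]
    · have h1 : (C.D n).inside ((C.D n).refl z) := ((C.D n).inside_refl_iff z).mpr h'
      rw [P.val_of_inside h1, Disk.refl_refl]

/-- the hyperbolic sine of half the distance -/
noncomputable def _root_.Pool.Agent.TH549.Crit.sh (z w : ℍ) : ℝ := Real.sinh (dist z w / 2)

/-- **The pointed Lipschitz bound.** -/
theorem pointed_bound (Λ : ℝ) (hΛ : ∀ z w, sh (P.σ z) (P.σ w) ≤ Λ * sh z w) (p : ℍ) :
    ∀ᶠ a in 𝓝 p, sh (P.val p) (P.val a) ≤ Λ * sh p a := by
  obtain ⟨k, hk⟩ := C.exists_steps p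
  induction k generalizing p with
  | zero =>
    have hF : p ∈ C.F := hk
    have h1 := C.local_finite p
    -- the reflections through `p`
    have h2 : ∀ᶠ a in 𝓝 p, ∀ n, (C.D n).closed p → ∀ m, (C.D m).closed ((C.D n).refl a) →
        (C.D m).closed p := by
      by_cases hex : ∃ n, (C.D n).closed p
      · obtain ⟨n, hn⟩ := hex
        have hfix : (C.D n).refl p = p := (C.D n).refl_eq_of_closed_not_inside hn (hF n)
        have hcont : Filter.Tendsto (C.D n).refl (𝓝 p) (𝓝 p) := by
          have := (C.D n).isometry_refl.continuous.tendsto p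
          rwa [hfix] at this
        filter_upwards [hcont.eventually h1] with a ha n' hn' m hm
        have : n' = n := C.index_unique hn' hn
        subst this
        exact ha m hm
      · exact Filter.Eventually.of_forall fun a n hn => absurd ⟨n, hn⟩ hex
    filter_upwards [h1, h2] with a ha1 ha2
    rw [P.val_of_mem hF]
    by_cases ha : a ∈ C.F
    · rw [P.val_of_mem ha]; exact hΛ _ _
    · simp only [Config.F, Set.mem_setOf_eq, not_forall, not_not] at ha
      obtain ⟨n, hn⟩ := ha
      have hnp : (C.D n).closed p := ha1 n hn.closed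
      have hfix : (C.D n).refl p = p := (C.D n).refl_eq_of_closed_not_inside hnp (hF n)
      have haF : (C.D n).refl a ∈ C.F := by
        intro m hm
        have h3 := ha2 n hnp m hm.closed
        have h4 : m = n := C.index_unique h3 hnp
        subst h4
        exact ((C.D m).inside_refl_iff a).mp hm hn.closed
      have hσp : (C'.D n).refl (P.σ p) = P.σ p := by
        apply (C'.D n).refl_eq_of_closed_not_inside
        · exact (P.closed_iff n p).mpr hnp
        · exact fun h => hF n ((P.inside_iff n p).mp h)
      rw [P.val_of_inside hn, P.val_of_mem haF]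
      have e1 : sh (P.σ p) ((C'.D n).refl (P.σ ((C.D n).refl a))) =
          sh (P.σ p) (P.σ ((C.D n).refl a)) := by
        unfold sh
        conv_lhs => rw [← hσp, (C'.D n).dist_refl]
      have e2 : sh p a = sh p ((C.D n).refl a) := by
        unfold sh
        conv_rhs => rw [← hfix, (C.D n).dist_refl]
      rw [e1, e2]
      exact hΛ _ _
  | succ k ih =>
    obtain ⟨n, hn, hk⟩ := hk
    have h1 := ih _ hk
    have h2 : ∀ᶠ a in 𝓝 p, (C.D n).inside a := (C.D n).isOpen_inside.mem_nhds hn
    have h3 := ((C.D n).isometry_refl.continuous.tendsto p).eventually h1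
    filter_upwards [h2, h3] with a ha2 ha3
    rw [P.val_of_inside hn, P.val_of_inside ha2]
    have e1 : sh ((C'.D n).refl (P.val ((C.D n).refl p))) ((C'.D n).refl (P.val ((C.D n).refl a))) =
        sh (P.val ((C.D n).refl p)) (P.val ((C.D n).refl a)) := by
      unfold sh; rw [(C'.D n).dist_refl]
    have e2 : sh p a = sh ((C.D n).refl p) ((C.D n).refl a) := by
      unfold sh; rw [(C.D n).dist_refl]
    rw [e1, e2]
    exact ha3

lemma _root_.Pool.Agent.TH549.Crit.sh_nonneg (z w : ℍ) : 0 ≤ sh z w :=
  Real.sinh_nonneg_iff.mpr (by positivity)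

lemma _root_.Pool.Agent.TH549.Crit.half_dist_le_sh (z w : ℍ) : dist z w / 2 ≤ sh z w :=
  Real.self_le_sinh_iff.mpr (by positivity)

lemma continuousAt_val (Λ : ℝ) (hΛ : ∀ z w, sh (P.σ z) (P.σ w) ≤ Λ * sh z w) (p : ℍ) :
    ContinuousAt P.val p := by
  rw [ContinuousAt, tendsto_iff_dist_tendsto_zero]
  have h1 := P.pointed_bound Λ hΛ p
  have h2 : Filter.Tendsto (fun a => 2 * (Λ * sh p a)) (𝓝 p) (𝓝 0) := by
    have : Continuous (fun a => 2 * (Λ * sh p a)) := by
      unfold sh
      have h3 : Continuous fun a => dist p a := continuous_const.dist continuous_id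
      exact continuous_const.mul (continuous_const.mul
        (Real.continuous_sinh.comp (h3.div_const 2)))
    have h4 := this.tendsto p
    simpa [sh] using h4
  refine squeeze_zero' (Filter.Eventually.of_forall fun a => dist_nonneg) ?_ h2
  filter_upwards [h1] with a ha
  have := half_dist_le_sh (P.val p) (P.val a)
  rw [dist_comm]
  linarith

/-- The extension as a homeomorphism. -/
noncomputable def homeo (Λ : ℝ) (hΛ : ∀ z w, sh (P.σ z) (P.σ w) ≤ Λ * sh z w)
    (hΛ' : ∀ z w, sh (P.symm.σ z) (P.symm.σ w) ≤ Λ * sh z w) : ℍ ≃ₜ ℍ where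
  toEquiv := P.ext
  continuous_toFun := continuous_iff_continuousAt.mpr (P.continuousAt_val Λ hΛ)
  continuous_invFun := continuous_iff_continuousAt.mpr (P.symm.continuousAt_val Λ hΛ')

end Compat

end Pool.Agent.TH549.Crit
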