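import Pool.Agent.TH549.Crit.Discrete

/-!
# The limit set
-/

set_option autoImplicit false

open UpperHalfPlane Topology
open scoped MatrixGroups

namespace Pool.Agent.TH549.Crit

/-- The circle at infinity, in the Riemann sphere. -/
def circleAtInfinity : Set (OnePoint ℂ) :=
  insert OnePoint.infty (Set.range fun x : ℝ => ((x : ℂ) : OnePoint ℂ))

/-- The limit set: the points of the circle at infinity in the closure of an orbit. -/
def limitSet (G : Subgroup (Equiv.Perm ℍ)) : Set (OnePoint ℂ) :=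
  circleAtInfinity ∩
    closure (Set.range fun g : G => ((((g : Equiv.Perm ℍ) I : ℍ) : ℂ) : OnePoint ℂ))

/-- A group is of the first kind if its limit set is the whole circle at infinity. -/
def IsFirstKind (G : Subgroup (Equiv.Perm ℍ)) : Prop := limitSet G = circleAtInfinity

lemma exists_rat_ne_zero {x y : ℝ} (h : x < y) : ∃ q : ℚ, q ≠ 0 ∧ x < q ∧ (q : ℝ) < y := by
  by_cases hy : 0 < y
  · obtain ⟨q, hq1, hq2⟩ := exists_rat_btwn (max_lt h hy)
    refine ⟨q, ?_, lt_of_le_of_lt (le_max_left _ _) hq1, hq2⟩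
    rintro rfl
    have := lt_of_le_of_lt (le_max_right x 0) hq1
    simp at this
  · obtain ⟨q, hq1, hq2⟩ := exists_rat_btwn h
    refine ⟨q, ?_, hq1, hq2⟩
    rintro rfl
    apply hy
    simpa using hq2

lemma inside_of_inside {D E : Disk} (h : |E.c - D.c| + D.r ≤ E.r) {z : ℍ} (hz : D.inside z) :
    E.inside z := by
  have hD := D.pos
  have hz' : (z.re - D.c) ^ 2 + z.im ^ 2 < D.r ^ 2 := hz
  change (z.re - E.c) ^ 2 + z.im ^ 2 < E.r ^ 2
  have h1 : |z.re - D.c| ≤ D.r := by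
    apply abs_le_of_sq_le_sq _ hD.le
    nlinarith [sq_nonneg z.im]
  have h2 : (z.re - D.c) * (D.c - E.c) ≤ D.r * |E.c - D.c| := by
    calc (z.re - D.c) * (D.c - E.c) ≤ |(z.re - D.c) * (D.c - E.c)| := le_abs_self _
      _ = |z.re - D.c| * |E.c - D.c| := by rw [abs_mul, abs_sub_comm D.c E.c]
      _ ≤ _ := mul_le_mul_of_nonneg_right h1 (abs_nonneg _)
  have h3 : (|E.c - D.c| + D.r) ^ 2 ≤ E.r ^ 2 :=
    pow_le_pow_left₀ (by positivity) h 2
  have h4 : |E.c - D.c| ^ 2 = (D.c - E.c) ^ 2 := by rw [sq_abs]; ring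
  nlinarith

namespace Config

variable (C : Config)

/-- A half disk is bad if it misses an orbit. -/
def Bad (J : Disk) : Prop := ∃ z : ℍ, ∀ g ∈ C.grp, ¬ J.inside (g z)

lemma exists_inside (m : ℕ) (z : ℍ) : ∃ g ∈ C.grp, (C.D m).inside (g z) := by
  have h1 : ∃ k, k ≠ m ∧ ¬ (C.D k).closed z := by
    by_contra hcon
    push Not at hcon
    have h2 := hcon (m + 1) (by omega)
    have h3 := hcon (m + 2) (by omega)
    have := C.index_unique h2 h3
    omega
  obtain ⟨k, hk, hz⟩ := h1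
  refine ⟨C.rho m * C.rho k, C.mem_grp m k, ?_⟩
  change (C.D m).inside ((C.D m).refl ((C.D k).refl z))
  rw [(C.D m).inside_refl_iff]
  have h2 : (C.D k).inside ((C.D k).refl z) := ((C.D k).inside_refl_iff z).mpr hz
  exact C.not_closed_of_closed h2.closed hk.symm

lemma not_bad_of_subset {J : Disk} {m : ℕ} (h : |J.c - (C.D m).c| + (C.D m).r ≤ J.r) :
    ¬ C.Bad J := by
  rintro ⟨z, hz⟩
  obtain ⟨g, hg, hi⟩ := C.exists_inside m z
  exact hz g hg (inside_of_inside h hi)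

/-- near an end point the other half disks are small -/
lemma near_end {n : ℕ} {e : ℝ} (he : |e - (C.D n).c| ≤ (C.D n).r) {η : ℝ} (hη : 0 < η) :
    ∃ δ > 0, ∀ m, m ≠ n → ∀ x : ℝ, |x - e| < δ → |x - (C.D m).c| ≤ (C.D m).r →
      |(C.D m).c - e| + (C.D m).r < η := by
  have hgap : ∀ m, m ≠ n → 0 < |e - (C.D m).c| - (C.D m).r := by
    intro m hm
    have h1 := C.disj m n hm
    have h2 : |(C.D m).c - (C.D n).c| ≤ |e - (C.D m).c| + |e - (C.D n).c| := by
      have h3 : (C.D m).c - (C.D n).c = (e - (C.D n).c) - (e - (C.D m).c) := by ring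
      rw [h3]
      exact (abs_sub _ _).trans (by linarith)
    linarith
  have hfin := C.fin (η / 4) (by positivity)
  have h1 : ∀ᶠ δ in 𝓝[>] (0 : ℝ), ∀ m ∈ {m | η / 4 ≤ (C.D m).r}, m ≠ n →
      δ < |e - (C.D m).c| - (C.D m).r := by
    rw [Filter.eventually_all_finite hfin]
    intro m _
    by_cases hm : m = n
    · exact Filter.Eventually.of_forall fun _ h => absurd hm h
    · have h2 : ∀ᶠ δ in 𝓝[>] (0 : ℝ), δ < |e - (C.D m).c| - (C.D m).r :=
        (Filter.tendsto_id.mono_left nhdsWithin_le_nhds).eventually (gt_mem_nhds (hgap m hm))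
      filter_upwards [h2] with δ hδ _
      exact hδ
  have h2 : ∀ᶠ δ in 𝓝[>] (0 : ℝ), δ < η / 4 :=
    (Filter.tendsto_id.mono_left nhdsWithin_le_nhds).eventually (gt_mem_nhds (by positivity))
  have h3 : ∀ᶠ δ in 𝓝[>] (0 : ℝ), 0 < δ := self_mem_nhdsWithin
  obtain ⟨δ, hδ1, hδ2, hδ3⟩ := (h1.and (h2.and h3)).exists
  refine ⟨δ, hδ3, fun m hm x hx hxm => ?_⟩
  have h5 : |(C.D m).c - e| ≤ |x - (C.D m).c| + |x - e| := by
    have h3 : (C.D m).c - e = (x - e) - (x - (C.D m).c) := by ring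
    rw [h3]
    exact (abs_sub _ _).trans (by linarith)
  by_cases hr : η / 4 ≤ (C.D m).r
  · have h4 := hδ1 m hr hm
    rw [abs_sub_comm] at h4
    linarith
  · rw [not_le] at hr
    linarith

variable (hcov : ∀ q : ℚ, q ≠ 0 → ∃ n, |(q : ℝ) - (C.D n).c| ≤ (C.D n).r)

include hcov in
lemma exists_sub_of_end {J : Disk} {n : ℕ} {e : ℝ} (he : |e - (C.D n).c| ≤ (C.D n).r)
    (hJ : |J.c - e| < J.r)
    (hx : ∀ δ > 0, ∃ q : ℚ, q ≠ 0 ∧ |(q : ℝ) - e| < δ ∧ (C.D n).r < |(q : ℝ) - (C.D n).c|) :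
    ¬ C.Bad J := by
  obtain ⟨δ, hδ, h1⟩ := C.near_end he (η := J.r - |J.c - e|) (by linarith)
  obtain ⟨q, hq0, hqe, hqn⟩ := hx δ hδ
  obtain ⟨m, hm⟩ := hcov q hq0
  have hmn : m ≠ n := by
    rintro rfl
    linarith
  have h2 := h1 m hmn q hqe hm
  apply C.not_bad_of_subset (m := m)
  have h3 : |J.c - (C.D m).c| ≤ |J.c - e| + |(C.D m).c - e| := by
    have h4 : J.c - (C.D m).c = (J.c - e) - ((C.D m).c - e) := by ring
    rw [h4]
    exact abs_sub _ _
  linarith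

include hcov in
/-- a bad half disk lies in one of the half disks of the configuration -/
lemma bad_sub {J : Disk} (h : C.Bad J) : ∃ n, |J.c - (C.D n).c| + J.r ≤ (C.D n).r := by
  have hJ := J.pos
  obtain ⟨q, hq0, hq1, hq2⟩ := exists_rat_ne_zero (x := J.c - J.r) (y := J.c + J.r) (by linarith)
  obtain ⟨n, hn⟩ := hcov q hq0
  refine ⟨n, ?_⟩
  by_contra hcon
  rw [not_le] at hcon
  have hn' := abs_le.mp hn
  have hnr := (C.D n).pos
  rcases le_total (C.D n).c J.c with hc | hc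
  · rw [abs_of_nonneg (by linarith)] at hcon
    refine C.exists_sub_of_end hcov (J := J) (n := n) (e := (C.D n).c + (C.D n).r) ?_ ?_ ?_ h
    · rw [add_sub_cancel_left, abs_of_pos hnr]
    · rw [abs_lt]; constructor <;> linarith [hn'.2]
    · intro δ hδ
      obtain ⟨p, hp0, hp1, hp2⟩ := exists_rat_ne_zero (x := (C.D n).c + (C.D n).r)
        (y := (C.D n).c + (C.D n).r + δ) (by linarith)
      refine ⟨p, hp0, ?_, ?_⟩
      · rw [abs_lt]; constructor <;> linarith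
      · rw [abs_of_pos (by linarith)]; linarith
  · rw [abs_of_nonpos (by linarith)] at hcon
    refine C.exists_sub_of_end hcov (J := J) (n := n) (e := (C.D n).c - (C.D n).r) ?_ ?_ ?_ h
    · rw [sub_sub_cancel_left, abs_neg, abs_of_pos hnr]
    · rw [abs_lt]; constructor <;> linarith [hn'.1]
    · intro δ hδ
      obtain ⟨p, hp0, hp1, hp2⟩ := exists_rat_ne_zero (x := (C.D n).c - (C.D n).r - δ)
        (y := (C.D n).c - (C.D n).r) (by linarith)
      refine ⟨p, hp0, ?_, ?_⟩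
      · rw [abs_lt]; constructor <;> linarith
      · rw [abs_of_neg (by linarith)]; linarith

include hcov in
lemma exists_far (n : ℕ) {T : ℝ} (hT : 0 ≤ T) :
    ∃ m, n ≠ m ∧ T < |(C.D n).c - (C.D m).c| - (C.D m).r := by
  obtain ⟨R, hR, hRb⟩ := C.radius_bdd
  obtain ⟨N, hN⟩ := exists_nat_gt (T + |(C.D n).c| + 2 * R)
  have hN0 : N ≠ 0 := by
    rintro rfl
    have := abs_nonneg (C.D n).c
    simp at hN
    linarith
  obtain ⟨m, hm⟩ := hcov N (by exact_mod_cast hN0)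
  have h1 : T < |(C.D n).c - (C.D m).c| - (C.D m).r := by
    have h2 := hRb m
    have h3 : (N : ℝ) ≤ |(C.D n).c| + (|(C.D n).c - (C.D m).c| + |((N : ℚ) : ℝ) - (C.D m).c|) := by
      have h4 : (N : ℝ) = (C.D n).c - ((C.D n).c - (C.D m).c) + (((N : ℚ) : ℝ) - (C.D m).c) := by
        push_cast; ring
      calc (N : ℝ) = |(C.D n).c - ((C.D n).c - (C.D m).c) + (((N : ℚ) : ℝ) - (C.D m).c)| := by
            rw [← h4, abs_of_nonneg (Nat.cast_nonneg N)]
        _ ≤ |(C.D n).c - ((C.D n).c - (C.D m).c)| + |((N : ℚ) : ℝ) - (C.D m).c| := abs_add_le _ _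
        _ ≤ _ := by
            have := abs_sub (C.D n).c ((C.D n).c - (C.D m).c)
            linarith
    linarith
  refine ⟨m, ?_, h1⟩
  rintro rfl
  rw [sub_self, abs_zero] at h1
  have := (C.D n).pos
  linarith

include hcov in
lemma bad_center {J : Disk} (h : C.Bad J) (n : ℕ) : J.r ≤ |J.c - (C.D n).c| := by
  by_contra hcon
  rw [not_le] at hcon
  obtain ⟨z, hz⟩ := h
  have hr := (C.D n).pos
  let E : Disk := ⟨(C.D n).c, J.r - |J.c - (C.D n).c|, by linarith⟩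
  have hE : 0 < E.r := E.pos
  obtain ⟨m, hm, hfar⟩ := C.exists_far hcov n (T := (C.D n).r ^ 2 / E.r) (by positivity)
  obtain ⟨g, hg, hi⟩ := C.exists_inside m (C.rho n z)
  have h1 := C.far hi.closed hm
  have h2 : E.inside ((C.D n).refl (g (C.rho n z))) := by
    change (C.D n).nsq ((C.D n).refl (g (C.rho n z))) < E.r ^ 2
    rw [Disk.nsq_refl, div_lt_iff₀ ((C.D n).nsq_pos _)]
    have h3 : ((C.D n).r ^ 2 / E.r) ^ 2 < (C.D n).nsq (g (C.rho n z)) :=
      lt_of_lt_of_le (pow_lt_pow_left₀ hfar (by positivity) two_ne_zero) h1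
    rw [div_pow, div_lt_iff₀ (by positivity)] at h3
    calc (C.D n).r ^ 4 = ((C.D n).r ^ 2) ^ 2 := by ring
      _ < _ := by rw [mul_comm]; exact h3
  have h3 : J.inside ((C.D n).refl (g (C.rho n z))) := by
    apply inside_of_inside (D := E) _ h2
    change |J.c - (C.D n).c| + (J.r - |J.c - (C.D n).c|) ≤ J.r
    linarith
  exact hz _ (C.conj_mem n hg) h3

/-- the image of a half disk under a reflection -/
lemma bad_image {J : Disk} (h : C.Bad J) (n : ℕ) (hK : J.r < |J.c - (C.D n).c|) :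
    ∃ J' : Disk, C.Bad J' ∧ J'.r = J.r * (C.D n).r ^ 2 / ((J.c - (C.D n).c) ^ 2 - J.r ^ 2) := by
  have hJ := J.pos
  have hr := (C.D n).pos
  have hK' : 0 < (J.c - (C.D n).c) ^ 2 - J.r ^ 2 := by
    rw [← sq_abs (J.c - (C.D n).c)]
    nlinarith
  refine ⟨⟨(C.D n).c + (C.D n).r ^ 2 * (J.c - (C.D n).c) / ((J.c - (C.D n).c) ^ 2 - J.r ^ 2),
    J.r * (C.D n).r ^ 2 / ((J.c - (C.D n).c) ^ 2 - J.r ^ 2), by positivity⟩, ?_, rfl⟩
  obtain ⟨z, hz⟩ := h
  refine ⟨C.rho n z, fun g hg hi => ?_⟩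
  apply hz _ (C.conj_mem n hg)
  change J.inside ((C.D n).refl (g (C.rho n z)))
  set w := g (C.rho n z) with hw
  have hi' : (w.re - ((C.D n).c + (C.D n).r ^ 2 * (J.c - (C.D n).c) /
      ((J.c - (C.D n).c) ^ 2 - J.r ^ 2))) ^ 2 + w.im ^ 2 <
      (J.r * (C.D n).r ^ 2 / ((J.c - (C.D n).c) ^ 2 - J.r ^ 2)) ^ 2 := hi
  change (((C.D n).refl w).re - J.c) ^ 2 + ((C.D n).refl w).im ^ 2 < J.r ^ 2
  rw [Disk.refl_re, Disk.refl_im]
  have hN := (C.D n).nsq_pos w
  have hNe : (C.D n).nsq w = (w.re - (C.D n).c) ^ 2 + w.im ^ 2 := rfl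
  set a := J.c
  set ρ := J.r
  set c := (C.D n).c
  set r := (C.D n).r
  set x := w.re
  set y := w.im
  set N := (C.D n).nsq w
  set K := (a - c) ^ 2 - ρ ^ 2 with hKdef
  have h1 : K * N - 2 * (a - c) * r ^ 2 * (x - c) + r ^ 4 < 0 := by
    have e1 : (x - (c + r ^ 2 * (a - c) / K)) ^ 2 + y ^ 2 - (ρ * r ^ 2 / K) ^ 2 =
        (K * N - 2 * (a - c) * r ^ 2 * (x - c) + r ^ 4) / K := by
      have hK0 : K ≠ 0 := hK'.ne'
      have e2 : ρ ^ 2 = (a - c) ^ 2 - K := by rw [hKdef]; ring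
      rw [div_pow, mul_pow, e2, hNe]
      field_simp
      ring
    have e3 : (K * N - 2 * (a - c) * r ^ 2 * (x - c) + r ^ 4) / K < 0 := by
      rw [← e1]; linarith
    rw [div_neg_iff] at e3
    rcases e3 with h | h
    · linarith [h.2]
    · exact h.1
  have e4 : (c + r ^ 2 * (x - c) / N - a) ^ 2 + (r ^ 2 * y / N) ^ 2 - ρ ^ 2 =
      (K * N - 2 * (a - c) * r ^ 2 * (x - c) + r ^ 4) / N := by
    have hN0 : N ≠ 0 := hN.ne'
    have e5 : y ^ 2 = N - (x - c) ^ 2 := by rw [hNe]; ring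
    rw [div_pow (r ^ 2 * y), mul_pow _ y, e5, hKdef]
    field_simp
    ring
  have e6 : (K * N - 2 * (a - c) * r ^ 2 * (x - c) + r ^ 4) / N < 0 :=
    div_neg_of_neg_of_pos h1 hN
  linarith

include hcov in
/-- **There is no bad half disk.** -/
theorem not_bad (J₀ : Disk) : ¬ C.Bad J₀ := by
  intro hJ₀
  obtain ⟨R, hR, hRb⟩ := C.radius_bdd
  set S : Set ℝ := {x | ∃ J : Disk, C.Bad J ∧ J.r = x} with hS
  have hSb : BddAbove S := by
    refine ⟨R, ?_⟩
    rintro _ ⟨J, hJ, rfl⟩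
    obtain ⟨n, hn⟩ := C.bad_sub hcov hJ
    have := hRb n
    have := abs_nonneg (J.c - (C.D n).c)
    linarith
  have hSne : S.Nonempty := ⟨_, J₀, hJ₀, rfl⟩
  set Y := sSup S with hY
  have hYpos : 0 < Y := lt_of_lt_of_le J₀.pos (le_csSup hSb ⟨J₀, hJ₀, rfl⟩)
  have hlt : max (Y / 2) (Y - Y ^ 2 / R) < Y := by
    apply max_lt (half_lt_self hYpos)
    have : 0 < Y ^ 2 / R := by positivity
    linarith
  obtain ⟨_, ⟨J, hJ, rfl⟩, hJr⟩ := exists_lt_of_lt_csSup hSne hlt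
  obtain ⟨ρ, hρ1, hρ2⟩ := exists_between hJr
  have hρY2 : Y / 2 < ρ := lt_of_le_of_lt (le_max_left _ _) hρ1
  have hρY3 : Y - Y ^ 2 / R < ρ := lt_of_le_of_lt (le_max_right _ _) hρ1
  have hJY : J.r ≤ Y := le_csSup hSb ⟨J, hJ, rfl⟩
  have hρ0 : 0 < ρ := by linarith
  let J' : Disk := ⟨J.c, ρ, hρ0⟩
  have hJ' : C.Bad J' := by
    obtain ⟨z, hz⟩ := hJ
    refine ⟨z, fun g hg hi => hz g hg (inside_of_inside (D := J') ?_ hi)⟩
    change |J.c - J.c| + ρ ≤ J.r
    rw [sub_self, abs_zero, zero_add]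
    exact hρ2.le
  obtain ⟨n, hn⟩ := C.bad_sub hcov hJ
  have hc := C.bad_center hcov hJ n
  have hK : J'.r < |J'.c - (C.D n).c| := lt_of_lt_of_le hρ2 hc
  obtain ⟨J'', hJ'', hr''⟩ := C.bad_image hJ' n hK
  have h1 : J''.r ≤ Y := le_csSup hSb ⟨J'', hJ'', rfl⟩
  have hK' : 0 < (J.c - (C.D n).c) ^ 2 - ρ ^ 2 := by
    have hK2 : ρ < |J.c - (C.D n).c| := hK
    rw [← sq_abs (J.c - (C.D n).c)]
    nlinarith
  rw [hr''] at h1
  change ρ * (C.D n).r ^ 2 / ((J.c - (C.D n).c) ^ 2 - ρ ^ 2) ≤ Y at h1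
  rw [div_le_iff₀ hK'] at h1
  have hr := (C.D n).pos
  have hrR := hRb n
  have h2 : (J.c - (C.D n).c) ^ 2 - ρ ^ 2 ≤ (C.D n).r * ((C.D n).r - 2 * ρ) := by
    rw [← sq_abs (J.c - (C.D n).c)]
    have h3 : |J.c - (C.D n).c| ≤ (C.D n).r - ρ := by linarith
    have h4 : 0 ≤ |J.c - (C.D n).c| := abs_nonneg _
    nlinarith
  have h3 : (Y - ρ) * R < Y ^ 2 := by
    have : Y - ρ < Y ^ 2 / R := by linarith
    rwa [lt_div_iff₀ hR] at this
  have h4 : Y ^ 2 < 2 * Y * ρ := by nlinarith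
  have h5 : (Y - ρ) * (C.D n).r ≤ (Y - ρ) * R :=
    mul_le_mul_of_nonneg_left hrR (by linarith)
  have h6 : Y * ((J.c - (C.D n).c) ^ 2 - ρ ^ 2) ≤ Y * ((C.D n).r * ((C.D n).r - 2 * ρ)) :=
    mul_le_mul_of_nonneg_left h2 hYpos.le
  have h7 : (C.D n).r * (ρ * (C.D n).r) ≤ (C.D n).r * (Y * ((C.D n).r - 2 * ρ)) := by nlinarith
  have h8 := le_of_mul_le_mul_left h7 hr
  nlinarith

include hcov in
/-- **The group is of the first kind.** -/
theorem isFirstKind : IsFirstKind C.grp := by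
  unfold IsFirstKind limitSet
  rw [Set.inter_eq_left]
  rintro ξ (rfl | ⟨x, rfl⟩)
  · -- the point at infinity
    have h1 : ∀ k : ℕ, ∃ g : C.grp, (k : ℝ) ≤ ‖((((g : Equiv.Perm ℍ) I : ℍ) : ℂ))‖ := by
      intro k
      obtain ⟨m, hm, hfar⟩ := C.exists_far hcov 0 (T := k + |(C.D 0).c|) (by positivity)
      obtain ⟨g, hg, hi⟩ := C.exists_inside m I
      refine ⟨⟨g, hg⟩, ?_⟩
      change (k : ℝ) ≤ ‖((g I : ℍ) : ℂ)‖
      have h2 := C.far hi.closed hm
      have h3 : (C.D 0).nsq (g I) = ‖((g I : ℍ) : ℂ) - (C.D 0).c‖ ^ 2 := by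
        rw [← Complex.normSq_eq_norm_sq, Complex.normSq_apply]
        simp [Disk.nsq]
        ring
      rw [h3] at h2
      have h4 := abs_le_of_sq_le_sq' h2 (norm_nonneg _)
      have h5 := norm_sub_le ((g I : ℍ) : ℂ) ((C.D 0).c : ℂ)
      rw [Complex.norm_real, Real.norm_eq_abs] at h5
      linarith [h4.2]
    choose g hg using h1
    have h2 : Filter.Tendsto (fun k => ((((g k : Equiv.Perm ℍ) I : ℍ) : ℂ))) Filter.atTop
        (Filter.cocompact ℂ) := by
      rw [← Metric.cobounded_eq_cocompact, ← tendsto_norm_atTop_iff_cobounded]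
      exact Filter.tendsto_atTop_mono hg tendsto_natCast_atTop_atTop
    have h3 : Filter.Tendsto (fun k => (((((g k : Equiv.Perm ℍ) I : ℍ) : ℂ)) : OnePoint ℂ))
        Filter.atTop (𝓝 OnePoint.infty) := by
      have h4 := OnePoint.tendsto_coe_infty (X := ℂ)
      rw [Filter.coclosedCompact_eq_cocompact] at h4
      exact h4.comp h2
    exact mem_closure_of_tendsto h3 (Filter.Eventually.of_forall fun k => ⟨g k, rfl⟩)
  · have h1 : (x : ℂ) ∈ closure (Set.range fun g : C.grp => (((g : Equiv.Perm ℍ) I : ℍ) : ℂ)) := by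
      rw [Metric.mem_closure_iff]
      intro ε hε
      have h2 := C.not_bad hcov ⟨x, ε, hε⟩
      unfold Bad at h2
      push Not at h2
      obtain ⟨g, hg, hi⟩ := h2 I
      refine ⟨_, ⟨⟨g, hg⟩, rfl⟩, ?_⟩
      change dist (x : ℂ) ((g I : ℍ) : ℂ) < ε
      rw [dist_comm, dist_eq_norm]
      have h3 : ‖((g I : ℍ) : ℂ) - x‖ ^ 2 < ε ^ 2 := by
        rw [← Complex.normSq_eq_norm_sq, Complex.normSq_apply]
        have h4 : ((g I).re - x) ^ 2 + (g I).im ^ 2 < ε ^ 2 := hi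
        simp
        nlinarith
      exact lt_of_pow_lt_pow_left₀ 2 hε.le h3
    have h2 := image_closure_subset_closure_image (OnePoint.continuous_coe (X := ℂ))
      (Set.mem_image_of_mem _ h1)
    rwa [← Set.range_comp] at h2

end Config

end Pool.Agent.TH549.Crit
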