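import Pool.Agent.TH549.Crit.QC

/-!
# The groups generated by products of two reflections
-/

set_option autoImplicit false

open UpperHalfPlane Topology

namespace Pool.Agent.TH549.Crit

/-- reduced lists -/
def Red : List ℕ → Prop
  | [] => True
  | [_] => True
  | i :: j :: l => i ≠ j ∧ Red (j :: l)

lemma Red.tail {i : ℕ} {l : List ℕ} (h : Red (i :: l)) : Red l := by
  cases l with
  | nil => trivial
  | cons j l => exact h.2

namespace Config

variable (C : Config)

/-- the reflections -/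
noncomputable def rho (n : ℕ) : Equiv.Perm ℍ := (C.D n).perm

lemma rho_apply (n : ℕ) (z : ℍ) : C.rho n z = (C.D n).refl z := rfl

lemma rho_mul_self (n : ℕ) : C.rho n * C.rho n = 1 := (C.D n).perm_mul_self

lemma rho_inv (n : ℕ) : (C.rho n)⁻¹ = C.rho n := (C.D n).perm_inv

/-- The group generated by the products of two reflections with indices in `X`. -/
noncomputable def grpOn (X : Set ℕ) : Subgroup (Equiv.Perm ℍ) :=
  Subgroup.closure {g | ∃ i ∈ X, ∃ j ∈ X, g = C.rho i * C.rho j}

/-- The group generated by the products of two reflections. -/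
noncomputable def grp : Subgroup (Equiv.Perm ℍ) := C.grpOn Set.univ

lemma mem_grp (i j : ℕ) : C.rho i * C.rho j ∈ C.grp :=
  Subgroup.subset_closure ⟨i, trivial, j, trivial, rfl⟩

lemma grp_le_PSL : C.grp ≤ PSL := by
  refine (Subgroup.closure_le _).mpr ?_
  rintro _ ⟨i, _, j, _, rfl⟩
  exact Disk.mul_mem_PSL _ _

/-- the element of a word -/
noncomputable def elt : List ℕ → Equiv.Perm ℍ
  | [] => 1
  | i :: l => C.rho i * elt l

lemma elt_nil : C.elt [] = 1 := rfl

lemma elt_cons (i : ℕ) (l : List ℕ) : C.elt (i :: l) = C.rho i * C.elt l := rfl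

lemma elt_cons_apply (i : ℕ) (l : List ℕ) (z : ℍ) :
    C.elt (i :: l) z = (C.D i).refl (C.elt l z) := rfl

lemma elt_append (l l' : List ℕ) : C.elt (l ++ l') = C.elt l * C.elt l' := by
  induction l with
  | nil => simp [elt_nil]
  | cons i l ih => rw [List.cons_append, elt_cons, elt_cons, ih, mul_assoc]

/-- ping-pong -/
lemma inside_elt {p : ℍ} (hp : ∀ n, ¬ (C.D n).closed p) (i : ℕ) (l : List ℕ) (h : Red (i :: l)) :
    (C.D i).inside (C.elt (i :: l) p) := by
  induction l generalizing i with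
  | nil =>
    rw [elt_cons_apply, (C.D i).inside_refl_iff]
    exact hp i
  | cons j l ih =>
    rw [elt_cons_apply, (C.D i).inside_refl_iff]
    exact C.not_closed_of_closed (ih j h.2).closed h.1

lemma elt_injective {p : ℍ} (hp : ∀ n, ¬ (C.D n).closed p) {l l' : List ℕ} (h : Red l)
    (h' : Red l') (he : C.elt l = C.elt l') : l = l' := by
  induction l generalizing l' with
  | nil =>
    cases l' with
    | nil => rfl
    | cons j l' =>
      have h1 := C.inside_elt hp j l' h'
      rw [← he] at h1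
      exact absurd h1.closed (hp j)
  | cons i l ih =>
    cases l' with
    | nil =>
      have h1 := C.inside_elt hp i l h
      rw [he] at h1
      exact absurd h1.closed (hp i)
    | cons j l' =>
      have h1 := C.inside_elt hp i l h
      have h2 := C.inside_elt hp j l' h'
      rw [he] at h1
      have h3 : i = j := C.index_unique h1.closed h2.closed
      subst h3
      rw [ih h.tail h'.tail (mul_left_cancel he)]

/-- Every element of the group comes from a reduced word. -/
lemma exists_word (X : Set ℕ) {g : Equiv.Perm ℍ} (hg : g ∈ C.grpOn X) :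
    ∃ l, Red l ∧ (∀ i ∈ l, i ∈ X) ∧ C.elt l = g := by
  have step : ∀ i ∈ X, ∀ g : Equiv.Perm ℍ, (∃ l, Red l ∧ (∀ i ∈ l, i ∈ X) ∧ C.elt l = g) →
      ∃ l, Red l ∧ (∀ i ∈ l, i ∈ X) ∧ C.elt l = C.rho i * g := by
    rintro i hi g ⟨l, hl, hlX, rfl⟩
    cases l with
    | nil => exact ⟨[i], trivial, by simpa using hi, rfl⟩
    | cons j l =>
      by_cases hij : i = j
      · subst hij
        refine ⟨l, hl.tail, fun k hk => hlX k (List.mem_cons_of_mem _ hk), ?_⟩
        rw [elt_cons, ← mul_assoc, rho_mul_self, one_mul]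
      · refine ⟨i :: j :: l, ⟨hij, hl⟩, ?_, rfl⟩
        intro k hk
        rcases List.mem_cons.mp hk with rfl | hk
        · exact hi
        · exact hlX k hk
  refine Subgroup.closure_induction_left
    (p := fun g _ => ∃ l, Red l ∧ (∀ i ∈ l, i ∈ X) ∧ C.elt l = g) ?_ ?_ ?_ hg
  · exact ⟨[], trivial, by simp, rfl⟩
  · rintro _ ⟨i, hi, j, hj, rfl⟩ y _ hy
    rw [mul_assoc]
    exact step i hi _ (step j hj _ hy)
  · rintro _ ⟨i, hi, j, hj, rfl⟩ y _ hy
    rw [mul_inv_rev, rho_inv, rho_inv, mul_assoc]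
    exact step j hj _ (step i hi _ hy)

/-- The group is normalised by the reflections. -/
lemma conj_mem (n : ℕ) {g : Equiv.Perm ℍ} (hg : g ∈ C.grp) : C.rho n * g * C.rho n ∈ C.grp := by
  have h1 : C.grp ≤ C.grp.comap (MulAut.conj (C.rho n)).toMonoidHom := by
    refine (Subgroup.closure_le _).mpr ?_
    rintro _ ⟨i, _, j, _, rfl⟩
    change C.rho n * (C.rho i * C.rho j) * (C.rho n)⁻¹ ∈ C.grp
    rw [rho_inv]
    have h2 := C.grp.mul_mem (C.mem_grp n i) (C.mem_grp j n)
    rwa [mul_assoc, mul_assoc, ← mul_assoc (C.rho n)] 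
  have h2 := h1 hg
  have h3 : C.rho n * g * (C.rho n)⁻¹ ∈ C.grp := h2
  rwa [rho_inv] at h3

/-- The group is not finitely generated. -/
theorem not_fg {p : ℍ} (hp : ∀ n, ¬ (C.D n).closed p) : ¬ C.grp.FG := by
  rintro ⟨S, hS⟩
  -- every element of the group lies in a subgroup with bounded indices
  have h1 : ∀ g ∈ C.grp, ∃ N, g ∈ C.grpOn (Set.Iio N) := by
    intro g hg
    refine Subgroup.closure_induction (p := fun g _ => ∃ N, g ∈ C.grpOn (Set.Iio N))
      ?_ ?_ ?_ ?_ hg
    · rintro _ ⟨i, _, j, _, rfl⟩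
      refine ⟨max i j + 1, Subgroup.subset_closure ⟨i, ?_, j, ?_, rfl⟩⟩
      · exact Nat.lt_succ_of_le (le_max_left _ _)
      · exact Nat.lt_succ_of_le (le_max_right _ _)
    · exact ⟨0, Subgroup.one_mem _⟩
    · rintro x y _ _ ⟨N, hN⟩ ⟨M, hM⟩
      have hmono : ∀ {a b : ℕ}, a ≤ b → C.grpOn (Set.Iio a) ≤ C.grpOn (Set.Iio b) := by
        intro a b hab
        refine Subgroup.closure_mono ?_
        rintro _ ⟨i, hi, j, hj, rfl⟩
        exact ⟨i, lt_of_lt_of_le hi hab, j, lt_of_lt_of_le hj hab, rfl⟩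
      exact ⟨max N M, Subgroup.mul_mem _ (hmono (le_max_left _ _) hN) (hmono (le_max_right _ _) hM)⟩
    · rintro x _ ⟨N, hN⟩
      exact ⟨N, Subgroup.inv_mem _ hN⟩
  have hSg : ∀ g ∈ S, g ∈ C.grp := fun g hg => by
    rw [← hS]; exact Subgroup.subset_closure hg
  choose! N hN using h1
  have h2 : C.grp ≤ C.grpOn (Set.Iio (S.sup N)) := by
    rw [← hS, Subgroup.closure_le]
    intro g hg
    have hmono : C.grpOn (Set.Iio (N g)) ≤ C.grpOn (Set.Iio (S.sup N)) := by
      refine Subgroup.closure_mono ?_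
      rintro _ ⟨i, hi, j, hj, rfl⟩
      have := Finset.le_sup (f := N) hg
      exact ⟨i, lt_of_lt_of_le hi this, j, lt_of_lt_of_le hj this, rfl⟩
    exact hmono (hN g (hSg g hg))
  set M := S.sup N with hM
  have h3 : C.rho (M + 1) * C.rho M ∈ C.grpOn (Set.Iio M) := h2 (C.mem_grp _ _)
  obtain ⟨l, hl, hlX, hle⟩ := C.exists_word _ h3
  have h4 : C.elt [M + 1, M] = C.elt l := by
    rw [hle, elt_cons, elt_cons, elt_nil, mul_one]
  have h5 := C.elt_injective hp (l := [M + 1, M]) ⟨by omega, trivial⟩ hl h4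
  have h6 : M ∈ l := by rw [← h5]; simp
  exact absurd (hlX M h6) (lt_irrefl M)

end Config

namespace Compat

variable {C C' : Config} (P : Compat C C')

lemma conj_rho (n : ℕ) : P.ext * C.rho n * P.ext⁻¹ = C'.rho n := by
  ext1 z
  change P.val ((C.D n).refl (P.symm.val z)) = (C'.D n).refl z
  rw [P.val_refl]
  congr 1
  exact P.symm.symm_val_val z

/-- The extension conjugates one group to the other. -/
theorem map_grp : C.grp.map (MulAut.conj (P.ext : Equiv.Perm ℍ)).toMonoidHom = C'.grp := by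
  unfold Config.grp Config.grpOn
  rw [MonoidHom.map_closure]
  congr 1
  ext g
  constructor
  · rintro ⟨_, ⟨i, _, j, _, rfl⟩, rfl⟩
    refine ⟨i, trivial, j, trivial, ?_⟩
    change P.ext * (C.rho i * C.rho j) * (P.ext : Equiv.Perm ℍ)⁻¹ = _
    rw [← P.conj_rho, ← P.conj_rho]
    group
  · rintro ⟨i, _, j, _, rfl⟩
    refine ⟨C.rho i * C.rho j, ⟨i, trivial, j, trivial, rfl⟩, ?_⟩
    change P.ext * (C.rho i * C.rho j) * (P.ext : Equiv.Perm ℍ)⁻¹ = _
    rw [← P.conj_rho, ← P.conj_rho]
    group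

end Compat

end Pool.Agent.TH549.Crit
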