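import Pool.Agent.TH549.Crit.Upper

/-!
# The lower bound for the critical exponent
-/

set_option autoImplicit false

open UpperHalfPlane Topology
open scoped ENNReal

namespace Pool.Agent.TH549.Crit

lemma tsum_listBool (f : List Bool → ℝ≥0∞) :
    ∑' l, f l = f [] + ∑' i, ∑' l, f (i :: l) := by
  rw [ENNReal.tsum_eq_add_tsum_ite []]
  congr 1
  let g : Bool × List Bool → List Bool := fun p => p.1 :: p.2
  have hg : Function.Injective g := by
    rintro ⟨a, l⟩ ⟨b, m⟩ h
    have h1 : a :: l = b :: m := h
    rw [List.cons.injEq] at h1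
    exact Prod.ext h1.1 h1.2
  rw [← ENNReal.tsum_prod, ← hg.tsum_eq]
  · refine tsum_congr fun p => ?_
    have : g p ≠ [] := List.cons_ne_nil _ _
    rw [if_neg this]
  · intro l hl
    rw [Function.mem_support] at hl
    cases l with
    | nil => simp at hl
    | cons i l => exact ⟨(i, l), rfl⟩

lemma not_summable_binary : ¬ Summable fun u : List Bool => (1 / 2 : ℝ) ^ u.length := by
  intro h
  have h1 := h.tsum_ofReal_ne_top
  set T := ∑' u : List Bool, ENNReal.ofReal ((1 / 2 : ℝ) ^ u.length) with hT
  have h2 : T = 1 + (T + 0) := by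
    conv_lhs => rw [hT, tsum_listBool]
    have h3 : ENNReal.ofReal ((1 / 2 : ℝ) ^ ([] : List Bool).length) = 1 := by simp
    have h4 : ∀ (i : Bool) (l : List Bool), ENNReal.ofReal ((1 / 2 : ℝ) ^ (i :: l).length) =
        2⁻¹ * ENNReal.ofReal ((1 / 2 : ℝ) ^ l.length) := by
      intro i l
      rw [List.length_cons, pow_succ', ENNReal.ofReal_mul (by norm_num)]
      congr 1
      rw [one_div, ENNReal.ofReal_inv_of_pos two_pos]
      simp
    simp_rw [h3, h4, ENNReal.tsum_mul_left]
    rw [← hT, tsum_bool, mul_add, ← add_mul, ENNReal.inv_two_add_inv_two, one_mul, add_zero]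
  rw [add_zero] at h2
  have h3 : (0 : ℝ≥0∞) + T = 1 + T := by rw [zero_add]; exact h2
  have h4 := (ENNReal.add_left_inj h1).mp h3
  exact zero_ne_one h4

/-- replace letters by pairs -/
def expand : List Bool → List ℕ
  | [] => []
  | b :: u => 0 :: (if b then 1 else 2) :: expand u

lemma red_cons_expand (a : ℕ) (ha : a ≠ 0) (u : List Bool) : Red (a :: expand u) := by
  induction u generalizing a with
  | nil => trivial
  | cons b u ih =>
    refine ⟨ha, ?_, ih _ ?_⟩
    · cases b <;> simp
    · cases b <;> simp

lemma red_expand (u : List Bool) : Red (expand u) := (red_cons_expand 1 one_ne_zero u).tail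

lemma expand_injective : Function.Injective expand := by
  intro u
  induction u with
  | nil =>
    intro v h
    cases v with
    | nil => rfl
    | cons b v => simp [expand] at h
  | cons a u ih =>
    intro v h
    cases v with
    | nil => simp [expand] at h
    | cons b v =>
      simp only [expand, List.cons.injEq, true_and] at h
      rw [ih h.2]
      have h1 := h.1
      cases a <;> cases b <;> simp_all

namespace Config

variable (C : Config)

lemma dist_rho (n : ℕ) (z w : ℍ) : dist (C.rho n z) (C.rho n w) = dist z w :=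
  (C.D n).dist_refl z w

lemma elt_expand_mem (u : List Bool) : C.elt (expand u) ∈ C.grp := by
  induction u with
  | nil => exact C.grp.one_mem
  | cons b u ih =>
    have h1 : C.elt (expand (b :: u)) = (C.rho 0 * C.rho (if b then 1 else 2)) *
        C.elt (expand u) := by
      rw [expand, elt_cons, elt_cons, mul_assoc]
    rw [h1]
    exact C.grp.mul_mem (C.mem_grp _ _) ih

lemma dist_elt_expand {K : ℝ} (h1 : dist I ((C.rho 0 * C.rho 1) I) ≤ K)
    (h2 : dist I ((C.rho 0 * C.rho 2) I) ≤ K) (u : List Bool) :
    dist I (C.elt (expand u) I) ≤ u.length * K := by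
  induction u with
  | nil => simp [expand, elt_nil]
  | cons b u ih =>
    have e1 : C.elt (expand (b :: u)) = (C.rho 0 * C.rho (if b then 1 else 2)) *
        C.elt (expand u) := by
      rw [expand, elt_cons, elt_cons, mul_assoc]
    rw [e1, Equiv.Perm.mul_apply]
    set g := C.rho 0 * C.rho (if b then 1 else 2) with hg
    have e2 : dist I (g I) ≤ K := by
      rw [hg]; cases b
      · exact h2
      · exact h1
    have e3 : dist (g I) (g (C.elt (expand u) I)) = dist I (C.elt (expand u) I) := by
      rw [hg, Equiv.Perm.mul_apply, Equiv.Perm.mul_apply, dist_rho, dist_rho]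
    have e4 := dist_triangle I (g I) (g (C.elt (expand u) I))
    rw [List.length_cons]
    push_cast
    linarith

/-- **The lower bound.** -/
theorem le_critExp (hI : ∀ n, ¬ (C.D n).closed I) {K : ℝ} (hK : 0 < K)
    (h1 : dist I ((C.rho 0 * C.rho 1) I) ≤ K)
    (h2 : dist I ((C.rho 0 * C.rho 2) I) ≤ K) : ((Real.log 2 / K : ℝ) : EReal) ≤ critExp C.grp := by
  refine le_iInf₂ fun s hs => ?_
  rw [EReal.coe_le_coe_iff]
  by_contra hlt
  rw [not_le] at hlt
  obtain ⟨hs0, hsum⟩ := hs
  let e : List Bool → C.grp := fun u => ⟨C.elt (expand u), C.elt_expand_mem u⟩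
  have he : Function.Injective e := by
    intro u v h
    have h3 : C.elt (expand u) = C.elt (expand v) := congrArg Subtype.val h
    exact expand_injective (C.elt_injective hI (red_expand u) (red_expand v) h3)
  have h3 := hsum.comp_injective he
  refine not_summable_binary (Summable.of_nonneg_of_le (fun u => by positivity) (fun u => ?_) h3)
  change _ ≤ Real.exp (-s * dist I (C.elt (expand u) I))
  have h4 := C.dist_elt_expand h1 h2 u
  have h5 : (1 / 2 : ℝ) ^ u.length = Real.exp (-(u.length * Real.log 2)) := by
    rw [Real.exp_neg, Real.exp_nat_mul, Real.exp_log two_pos, one_div, inv_pow]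
  rw [h5]
  apply Real.exp_le_exp.mpr
  have h6 : s * K < Real.log 2 := by rwa [lt_div_iff₀ hK] at hlt
  have h7 : s * dist I (C.elt (expand u) I) ≤ s * (u.length * K) :=
    mul_le_mul_of_nonneg_left h4 hs0.le
  have h8 : (u.length : ℝ) * (s * K) ≤ u.length * Real.log 2 :=
    mul_le_mul_of_nonneg_left h6.le (Nat.cast_nonneg _)
  nlinarith

end Config

end Pool.Agent.TH549.Crit
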