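import Pool.Agent.TH549.Crit.Build

/-!
# The potential
-/

set_option autoImplicit false

open UpperHalfPlane Topology
open scoped ENNReal

namespace Pool.Agent.TH549.Crit

lemma tsum_geo (a : ℝ) (ha : 0 ≤ a) :
    ∑' k : ℕ, ENNReal.ofReal (a * (1 / 5) ^ k) = ENNReal.ofReal (a * (5 / 4)) := by
  have h1 : HasSum (fun k : ℕ => a * (1 / 5 : ℝ) ^ k) (a * (5 / 4)) := by
    have h2 := (hasSum_geometric_of_lt_one (r := (1 / 5 : ℝ)) (by norm_num) (by norm_num)).mul_left a
    norm_num at h2 ⊢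
    exact h2
  rw [← ENNReal.ofReal_tsum_of_nonneg (fun k => by positivity) h1.summable, h1.tsum_eq]

/-- the potential -/
noncomputable def pot (K : ℝ) : ℕ → ℝ≥0∞
  | 0 => ENNReal.ofReal K
  | 1 => ENNReal.ofReal K
  | n + 2 => ENNReal.ofReal (2 * (1 / 5) ^ (n + 2))

lemma pot_of_two_le (K : ℝ) {n : ℕ} (hn : 2 ≤ n) : pot K n = ENNReal.ofReal (2 * (1 / 5) ^ n) := by
  match n, hn with
  | n + 2, _ => rfl

lemma tsum_split_two (f : ℕ → ℝ≥0∞) : ∑' j, f j = f 0 + (f 1 + ∑' k, f (k + 2)) := by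
  rw [tsum_eq_zero_add' ENNReal.summable, tsum_eq_zero_add' ENNReal.summable]

lemma tsum_pot_tail (K : ℝ) : ∑' k, pot K (k + 2) = ENNReal.ofReal (1 / 10) := by
  have h1 : ∀ k, pot K (k + 2) = ENNReal.ofReal ((2 / 25) * (1 / 5) ^ k) := by
    intro k
    rw [pot_of_two_le K (by omega)]
    congr 1
    rw [pow_add]
    ring
  simp_rw [h1]
  rw [tsum_geo _ (by norm_num)]
  norm_num

lemma tsum_pot (K : ℝ) (hK : 0 ≤ K) : ∑' j, pot K j = ENNReal.ofReal (2 * K + 1 / 10) := by
  rw [tsum_split_two, tsum_pot_tail]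
  change ENNReal.ofReal K + (ENNReal.ofReal K + _) = _
  rw [← ENNReal.ofReal_add hK (by norm_num), ← ENNReal.ofReal_add hK (by positivity)]
  congr 1
  ring

lemma tsum_pot_gt (K : ℝ) {i : ℕ} (hi : 2 ≤ i) :
    ∑' j, (if i < j then pot K j else 0) = ENNReal.ofReal (1 / 2 * (1 / 5) ^ i) := by
  have hinj : Function.Injective fun k : ℕ => k + (i + 1) := add_left_injective (i + 1)
  rw [← hinj.tsum_eq]
  · have h1 : ∀ k : ℕ, (if i < k + (i + 1) then pot K (k + (i + 1)) else 0) =
        ENNReal.ofReal ((2 / 5 * (1 / 5) ^ i) * (1 / 5) ^ k) := by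
      intro k
      rw [if_pos (by omega), pot_of_two_le K (by omega)]
      congr 1
      rw [pow_add, pow_add]
      ring
    simp_rw [h1]
    rw [tsum_geo _ (by positivity)]
    congr 1
    ring
  · intro j hj
    rw [Function.mem_support] at hj
    have : i < j := by
      by_contra h
      rw [if_neg h] at hj
      exact hj rfl
    exact ⟨j - (i + 1), by change j - (i + 1) + (i + 1) = j; omega⟩

namespace Sizes

variable {s : ℝ} (hs : 0 < s) (Z : Sizes s) (q : ℕ → ℚ)

include hs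

lemma aW_le_one (C : Config) (i j : ℕ) : C.aW s i j ≤ 1 := by
  unfold Config.aW
  split_ifs with h
  · exact zero_le_one
  · rw [ENNReal.ofReal_le_one]
    have h1 := C.gap_pos h
    have h2 := C.disj i j h
    have h3 := (C.D i).pos
    refine Real.rpow_le_one (by positivity) ?_ hs.le
    refine pow_le_one₀ (by positivity) ?_
    rw [div_le_one h1]
    linarith

lemma aW_le_tau {i j : ℕ} (hi : 2 ≤ i) (hj : j < i) :
    (Z.config q).aW s i j ≤ ENNReal.ofReal ((1 - (1 / 9 : ℝ) ^ s) * (1 / 5) ^ i / 12) := by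
  unfold Config.aW
  rw [if_neg hj.ne']
  apply ENNReal.ofReal_le_ofReal
  refine le_trans ?_ (Z.wt i)
  have h1 := (Z.config q).gap_pos hj.ne'
  have h3 := ((Z.config q).D i).pos
  refine Real.rpow_le_rpow (by positivity) ?_ hs.le
  refine pow_le_pow_left₀ (by positivity) ?_ 2
  rw [div_le_iff₀ h1]
  exact Z.dsk_gap q hi hj

lemma bW_le_tau {i : ℕ} (hi : 2 ≤ i) :
    (Z.config q).bW s i ≤ ENNReal.ofReal ((1 - (1 / 9 : ℝ) ^ s) * (1 / 5) ^ i / 12) := by
  unfold Config.bW
  apply ENNReal.ofReal_le_ofReal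
  refine le_trans ?_ (Z.wt i)
  have h3 := ((Z.config q).D i).pos
  refine Real.rpow_le_rpow (by positivity) ?_ hs.le
  exact pow_le_pow_left₀ h3.le (Z.dsk_r_le q hi) 2

lemma bW_le_one {i : ℕ} (hi : i < 2) : (Z.config q).bW s i ≤ ENNReal.ofReal 1 := by
  unfold Config.bW
  apply ENNReal.ofReal_le_ofReal
  refine Real.rpow_le_one (by positivity) ?_ hs.le
  match i, hi with
  | 0, _ => rw [config_D, dsk_zero]; norm_num
  | 1, _ => rw [config_D, dsk_one]; norm_num

lemma aW_zero_one : (Z.config q).aW s 0 1 = ENNReal.ofReal ((1 / 9 : ℝ) ^ s) := by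
  unfold Config.aW
  rw [if_neg zero_ne_one, config_D, config_D, dsk_zero, dsk_one]
  norm_num

lemma aW_one_zero : (Z.config q).aW s 1 0 = ENNReal.ofReal ((1 / 9 : ℝ) ^ s) := by
  unfold Config.aW
  rw [if_neg one_ne_zero, config_D, config_D, dsk_zero, dsk_one]
  norm_num

/-- **The potential inequality.** -/
theorem potential (i : ℕ) :
    (Z.config q).bW s i + ∑' j, (Z.config q).aW s i j * pot (2 / (1 - (1 / 9 : ℝ) ^ s)) j ≤
      pot (2 / (1 - (1 / 9 : ℝ) ^ s)) i := by
  have hk := kap_lt hs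
  have hk0 := kap_pos s
  set κ := (1 / 9 : ℝ) ^ s with hκ
  have hμ : 0 < 1 - κ := by linarith
  set K := 2 / (1 - κ) with hK
  have hKμ : K * (1 - κ) = 2 := by rw [hK]; field_simp
  have hK0 : 0 < K := by positivity
  have small : ∀ (a b : ℝ≥0∞), a = 0 → b = ENNReal.ofReal (κ * K) →
      ENNReal.ofReal 1 + (a + (b + ENNReal.ofReal (1 / 10))) ≤ ENNReal.ofReal K := by
    rintro a b rfl rfl
    rw [zero_add, ← ENNReal.ofReal_add (by positivity) (by norm_num),
      ← ENNReal.ofReal_add (by norm_num) (by positivity)]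
    apply ENNReal.ofReal_le_ofReal
    nlinarith
  have tail : ∀ i, ∑' k, (Z.config q).aW s i (k + 2) * pot K (k + 2) ≤ ENNReal.ofReal (1 / 10) := by
    intro i
    rw [← tsum_pot_tail K]
    refine ENNReal.tsum_le_tsum fun k => ?_
    calc (Z.config q).aW s i (k + 2) * pot K (k + 2) ≤ 1 * pot K (k + 2) :=
          mul_le_mul_left (aW_le_one hs _ _ _) _
      _ = _ := one_mul _
  match i with
  | 0 =>
    rw [tsum_split_two]
    refine le_trans ?_ (small 0 _ rfl rfl)
    refine add_le_add (bW_le_one hs Z q (by omega)) (add_le_add (le_of_eq ?_)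
      (add_le_add (le_of_eq ?_) (tail 0)))
    · unfold Config.aW; rw [if_pos rfl, zero_mul]
    · rw [aW_zero_one hs, ENNReal.ofReal_mul hk0.le]; rfl
  | 1 =>
    rw [tsum_split_two]
    refine le_trans ?_ (small 0 _ rfl rfl)
    have e : (Z.config q).aW s 1 0 * pot K 0 + ((Z.config q).aW s 1 1 * pot K 1 +
        ∑' k, (Z.config q).aW s 1 (k + 2) * pot K (k + 2)) =
        (Z.config q).aW s 1 1 * pot K 1 + ((Z.config q).aW s 1 0 * pot K 0 +
        ∑' k, (Z.config q).aW s 1 (k + 2) * pot K (k + 2)) := by ring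
    rw [e]
    refine add_le_add (bW_le_one hs Z q (by omega)) (add_le_add (le_of_eq ?_)
      (add_le_add (le_of_eq ?_) (tail 1)))
    · unfold Config.aW; rw [if_pos rfl, zero_mul]
    · rw [aW_one_zero hs, ENNReal.ofReal_mul hk0.le]; rfl
  | n + 2 =>
    set i := n + 2 with hi
    have hi2 : 2 ≤ i := by omega
    set τ := (1 - κ) * (1 / 5) ^ i / 12 with hτ
    have hτ0 : 0 ≤ τ := by positivity
    have h1 : ∑' j, (Z.config q).aW s i j * pot K j ≤
        ENNReal.ofReal τ * ENNReal.ofReal (2 * K + 1 / 10) +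
          ENNReal.ofReal (1 / 2 * (1 / 5) ^ i) := by
      rw [← tsum_pot K hK0.le, ← tsum_pot_gt K hi2, ← ENNReal.tsum_mul_left, ← ENNReal.tsum_add]
      refine ENNReal.tsum_le_tsum fun j => ?_
      rcases lt_trichotomy j i with hj | hj | hj
      · rw [if_neg (by omega), add_zero]
        exact mul_le_mul_left (aW_le_tau hs Z q hi2 hj) _
      · rw [if_neg (by omega), add_zero, hj]
        have : (Z.config q).aW s i i = 0 := by unfold Config.aW; rw [if_pos rfl]
        rw [this, zero_mul]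
        exact zero_le
      · rw [if_pos hj]
        refine le_trans ?_ le_add_self
        calc (Z.config q).aW s i j * pot K j ≤ 1 * pot K j :=
              mul_le_mul_left (aW_le_one hs _ _ _) _
          _ = _ := one_mul _
    refine (add_le_add (bW_le_tau hs Z q hi2) h1).trans ?_
    rw [pot_of_two_le K hi2, ← ENNReal.ofReal_mul hτ0,
      ← ENNReal.ofReal_add (by positivity) (by positivity),
      ← ENNReal.ofReal_add hτ0 (by positivity)]
    apply ENNReal.ofReal_le_ofReal
    have h2 : (0 : ℝ) < (1 / 5) ^ i := by positivity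
    have h3 : τ * (2 * K) = (1 / 5) ^ i / 3 := by
      rw [hτ]
      calc (1 - κ) * (1 / 5) ^ i / 12 * (2 * K) = (K * (1 - κ)) * (1 / 5) ^ i / 6 := by ring
        _ = _ := by rw [hKμ]; ring
    have h4 : τ ≤ (1 / 5) ^ i / 12 := by
      rw [hτ]
      nlinarith
    nlinarith

lemma not_closed_I {D : Disk} (h : D.Away) : ¬ D.closed I := by
  intro hc
  have h1 : (I.re - D.c) ^ 2 + I.im ^ 2 ≤ D.r ^ 2 := hc
  have h2 : 2 * D.r ≤ |D.c| := h
  have h3 := D.pos
  have h4 : D.r ^ 2 ≤ D.c ^ 2 / 4 := by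
    rw [← sq_abs D.c]
    nlinarith [abs_nonneg D.c]
  rw [I_re, I_im] at h1
  nlinarith [sq_nonneg D.c]

/-- **Convergence of the Poincaré series.** -/
theorem summable :
    Summable fun g : (Z.config q).grp => Real.exp (-s * dist I ((g : Equiv.Perm ℍ) I)) := by
  refine (Z.config q).summable_of_potential hs
    (fun n => not_closed_I hs (Z.dsk_away q n)) _ (Z.potential hs q) ?_
  have hk := kap_lt hs
  rw [tsum_pot _ (div_nonneg (by norm_num) (by linarith))]
  exact ENNReal.ofReal_ne_top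

end Sizes

end Pool.Agent.TH549.Crit
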