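import Pool.Agent.TH549.Crit.Scale

/-!
# Quasiconformality of the extension
-/

set_option autoImplicit false

open UpperHalfPlane Topology

namespace Pool.Agent.TH549.Crit

/-- The metric definition of quasiconformality, for the hyperbolic metric: there is a constant `H`
such that, at every point `z` and for all small `r`, the image of the ball of radius `r` around `z`
lies in a ball around `w z` whose radius is at most `H` times the distance from `w z` to
the image of the complement of that ball. -/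
def MetricQC (w : ℍ ≃ₜ ℍ) : Prop :=
  ∃ H : ℝ, ∀ z : ℍ, ∀ᶠ r in 𝓝[>] (0 : ℝ), ∀ a b : ℍ, dist z a ≤ r → r ≤ dist z b →
    dist (w z) (w a) ≤ H * dist (w z) (w b)

/-- A homeomorphism of the upper half plane has positive Jacobian at some point. -/
def PositiveSomewhere (w : ℍ ≃ₜ ℍ) : Prop :=
  ∃ (z : ℍ) (L : ℂ →L[ℝ] ℂ), 0 < L.det ∧
    HasFDerivAt (fun x : ℂ => ((w (ofComplex x) : ℍ) : ℂ)) L (z : ℂ)

lemma metricQC_refl : MetricQC (Homeomorph.refl ℍ) := by
  refine ⟨1, fun z => Filter.Eventually.of_forall fun r a b ha hb => ?_⟩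
  rw [one_mul]
  exact ha.trans hb

lemma positive_of_eventually {w : ℍ ≃ₜ ℍ} (z : ℍ) (h : ∀ᶠ a in 𝓝 z, w a = a) :
    PositiveSomewhere w := by
  refine ⟨z, ContinuousLinearMap.id ℝ ℂ, ?_, ?_⟩
  · have : (ContinuousLinearMap.id ℝ ℂ).det = 1 := by
      rw [ContinuousLinearMap.det, ContinuousLinearMap.coe_id, LinearMap.det_id]
    rw [this]
    exact one_pos
  · have h1 : (fun x : ℂ => ((w (ofComplex x) : ℍ) : ℂ)) =ᶠ[𝓝 (z : ℂ)] id := by
      have h2 : Filter.Tendsto (fun x : ℂ => ofComplex x) (𝓝 (z : ℂ)) (𝓝 z) := by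
        have h3 := (UpperHalfPlane.mdifferentiable_coe (z))
        have h4 : ContinuousAt (fun x : ℂ => ofComplex x) (z : ℂ) :=
          (UpperHalfPlane.mdifferentiableAt_ofComplex z.im_pos).continuousAt
        have h5 : ofComplex (z : ℂ) = z := ofComplex_apply z
        have h6 := h4.tendsto
        rwa [h5] at h6
      have h3 := h2.eventually h
      have h4 : ∀ᶠ x : ℂ in 𝓝 (z : ℂ), 0 < x.im :=
        (Complex.continuous_im.tendsto (z : ℂ)).eventually (lt_mem_nhds z.im_pos)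
      filter_upwards [h3, h4] with x hx hx2
      rw [hx, id, ofComplex_apply_of_im_pos hx2]
    exact (hasFDerivAt_id (z : ℂ)).congr_of_eventuallyEq h1

lemma sinh_le_two_mul {x : ℝ} (h0 : 0 ≤ x) (h1 : x ≤ 1) : Real.sinh x ≤ 2 * x := by
  rw [Real.sinh_eq]
  have h2 : |Real.exp x - 1| ≤ 2 * |x| := Real.abs_exp_sub_one_le (by rwa [abs_of_nonneg h0])
  rw [abs_of_nonneg h0] at h2
  have h3 := (abs_le.mp h2).2
  have h4 := Real.add_one_le_exp (-x)
  linarith

/-- **The extension is quasiconformal.** -/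
theorem Compat.metricQC {C C' : Config} (P : Compat C C') (Λ : ℝ) (h1Λ : 1 ≤ Λ)
    (hΛ : ∀ z w, sh (P.σ z) (P.σ w) ≤ Λ * sh z w)
    (hΛ' : ∀ z w, sh (P.symm.σ z) (P.symm.σ w) ≤ Λ * sh z w) :
    MetricQC (P.homeo Λ hΛ hΛ') := by
  refine ⟨2 * Λ ^ 2 + 1, fun z => ?_⟩
  change ∀ᶠ r in 𝓝[>] (0 : ℝ), ∀ a b : ℍ, dist z a ≤ r → r ≤ dist z b →
    dist (P.val z) (P.val a) ≤ (2 * Λ ^ 2 + 1) * dist (P.val z) (P.val b)
  obtain ⟨ε₁, hε₁, h1⟩ := Metric.eventually_nhds_iff.mp (P.pointed_bound Λ hΛ z)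
  obtain ⟨ε₂, hε₂, h2⟩ := Metric.eventually_nhds_iff.mp (P.symm.pointed_bound Λ hΛ' (P.val z))
  have hcont : Filter.Tendsto (fun r : ℝ => 2 * Λ * Real.sinh (r / 2)) (𝓝[>] 0) (𝓝 0) := by
    have h3 : Continuous (fun r : ℝ => 2 * Λ * Real.sinh (r / 2)) :=
      continuous_const.mul (Real.continuous_sinh.comp (continuous_id.div_const 2))
    have h4 := h3.tendsto 0
    simp only [zero_div, Real.sinh_zero, mul_zero] at h4
    exact h4.mono_left nhdsWithin_le_nhds
  have h5 : ∀ᶠ r in 𝓝[>] (0 : ℝ), 2 * Λ * Real.sinh (r / 2) < min ε₂ 2 :=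
    hcont.eventually (gt_mem_nhds (lt_min hε₂ two_pos))
  have h6 : ∀ᶠ r in 𝓝[>] (0 : ℝ), r < ε₁ :=
    (Filter.tendsto_id.mono_left nhdsWithin_le_nhds).eventually (gt_mem_nhds hε₁)
  have h7 : ∀ᶠ r in 𝓝[>] (0 : ℝ), 0 < r := self_mem_nhdsWithin
  filter_upwards [h5, h6, h7] with r hr5 hr6 hr7 a b ha hb
  have ea : dist (P.val z) (P.val a) ≤ 2 * Λ * Real.sinh (r / 2) := by
    have e1 := half_dist_le_sh (P.val z) (P.val a)
    have e2 : sh (P.val z) (P.val a) ≤ Λ * sh z a := h1 (by rw [dist_comm]; linarith)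
    have e3 : sh z a ≤ Real.sinh (r / 2) := Real.sinh_le_sinh.mpr (by linarith)
    nlinarith
  have e4 : Real.sinh (r / 2) ≤ sh z b := Real.sinh_le_sinh.mpr (by linarith)
  have hd : 0 ≤ dist (P.val z) (P.val b) := dist_nonneg
  by_cases hb2 : dist (P.val z) (P.val b) < min ε₂ 2
  · have e5 : sh z b ≤ Λ * sh (P.val z) (P.val b) := by
      have := h2 (y := P.val b) (by rw [dist_comm]; exact lt_of_lt_of_le hb2 (min_le_left _ _))
      rwa [P.symm_val_val, P.symm_val_val] at this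
    have e6 : sh (P.val z) (P.val b) ≤ 2 * (dist (P.val z) (P.val b) / 2) := by
      apply sinh_le_two_mul (by positivity)
      have := lt_of_lt_of_le hb2 (min_le_right _ _)
      linarith
    have e7 : Real.sinh (r / 2) ≤ Λ * dist (P.val z) (P.val b) := by
      have : Λ * sh (P.val z) (P.val b) ≤ Λ * dist (P.val z) (P.val b) :=
        mul_le_mul_of_nonneg_left (by linarith) (by linarith)
      linarith
    calc dist (P.val z) (P.val a) ≤ 2 * Λ * Real.sinh (r / 2) := ea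
      _ ≤ 2 * Λ * (Λ * dist (P.val z) (P.val b)) :=
          mul_le_mul_of_nonneg_left e7 (by linarith)
      _ ≤ _ := by nlinarith
  · rw [not_lt] at hb2
    calc dist (P.val z) (P.val a) ≤ dist (P.val z) (P.val b) := by linarith
      _ ≤ _ := by nlinarith [sq_nonneg Λ]

lemma one_le_lip (κ : ℝ) : 1 ≤ Config.lip κ := by
  unfold Config.lip
  have h1 : 1 ≤ Real.exp |κ| := Real.one_le_exp (abs_nonneg _)
  have h2 := abs_nonneg κ
  exact one_le_mul_of_one_le_of_one_le h1 (one_le_mul_of_one_le_of_one_le h1 (by linarith))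

end Pool.Agent.TH549.Crit
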