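import Mathlib

/-!
# Reflections of the hyperbolic plane in half circles centred on the real line
-/

set_option autoImplicit false

open UpperHalfPlane
open scoped MatrixGroups

namespace Pool.Agent.TH549.Crit

/-- A half disk, given by its centre on the real line and its radius. -/
structure Disk where
  c : ℝ
  r : ℝ
  pos : 0 < r

namespace Disk

variable (D : Disk)

/-- The square of the Euclidean distance to the centre. -/
noncomputable def nsq (z : ℍ) : ℝ := (z.re - D.c) ^ 2 + z.im ^ 2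

lemma nsq_pos (z : ℍ) : 0 < D.nsq z := by
  have := z.im_pos
  unfold nsq; positivity

/-- The reflection in the half circle. -/
noncomputable def refl (z : ℍ) : ℍ :=
  ⟨⟨D.c + D.r ^ 2 * (z.re - D.c) / D.nsq z, D.r ^ 2 * z.im / D.nsq z⟩, by
    have h1 := D.nsq_pos z
    have h2 := z.im_pos
    have h3 := D.pos
    change 0 < D.r ^ 2 * z.im / D.nsq z
    positivity⟩

lemma refl_re (z : ℍ) : (D.refl z).re = D.c + D.r ^ 2 * (z.re - D.c) / D.nsq z := rfl

lemma refl_im (z : ℍ) : (D.refl z).im = D.r ^ 2 * z.im / D.nsq z := rfl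

lemma nsq_refl (z : ℍ) : D.nsq (D.refl z) = D.r ^ 4 / D.nsq z := by
  have h1 := (D.nsq_pos z).ne'
  have h2 : D.nsq (D.refl z) = (D.r ^ 2 * (z.re - D.c) / D.nsq z) ^ 2 +
      (D.r ^ 2 * z.im / D.nsq z) ^ 2 := by
    rw [nsq, refl_re, refl_im]; ring
  rw [h2]
  field_simp
  unfold nsq
  ring

lemma nsq_mul_nsq_refl (z : ℍ) : D.nsq z * D.nsq (D.refl z) = D.r ^ 4 := by
  rw [nsq_refl, mul_div_cancel₀]
  exact (D.nsq_pos z).ne'

@[simp] lemma refl_refl (z : ℍ) : D.refl (D.refl z) = z := by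
  have h1 := (D.nsq_pos z).ne'
  have h2 := D.pos.ne'
  apply UpperHalfPlane.ext_re_im
  · rw [refl_re, nsq_refl, refl_re]
    field_simp
    ring
  · rw [refl_im, nsq_refl, refl_im]
    field_simp

lemma refl_eq_self {z : ℍ} (h : D.nsq z = D.r ^ 2) : D.refl z = z := by
  have h2 : D.r ≠ 0 := D.pos.ne'
  apply UpperHalfPlane.ext_re_im
  · rw [refl_re, h]
    field_simp
    ring
  · rw [refl_im, h]
    field_simp

/-- inside the open half disk -/
def inside (z : ℍ) : Prop := D.nsq z < D.r ^ 2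

/-- in the closed half disk -/
def closed (z : ℍ) : Prop := D.nsq z ≤ D.r ^ 2

lemma inside.closed {D : Disk} {z : ℍ} (h : D.inside z) : D.closed z := le_of_lt h

lemma refl_eq_of_closed_not_inside {z : ℍ} (h : D.closed z) (h' : ¬ D.inside z) :
    D.refl z = z := D.refl_eq_self (le_antisymm h (not_lt.mp h'))

lemma inside_refl_iff (z : ℍ) : D.inside (D.refl z) ↔ ¬ D.closed z := by
  have h1 := D.nsq_pos z
  have h2 : 0 < D.r ^ 2 := by have := D.pos; positivity
  unfold inside closed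
  rw [nsq_refl, div_lt_iff₀ h1, not_le]
  have : D.r ^ 4 = D.r ^ 2 * D.r ^ 2 := by ring
  rw [this, mul_lt_mul_iff_right₀ h2]

lemma closed_refl_iff (z : ℍ) : D.closed (D.refl z) ↔ ¬ D.inside z := by
  have h1 := D.nsq_pos z
  have h2 : 0 < D.r ^ 2 := by have := D.pos; positivity
  unfold inside closed
  rw [nsq_refl, div_le_iff₀ h1, not_lt]
  have : D.r ^ 4 = D.r ^ 2 * D.r ^ 2 := by ring
  rw [this, mul_le_mul_iff_right₀ h2]

lemma im_le_of_closed {z : ℍ} (h : D.closed z) : z.im ≤ D.r := by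
  have h1 : z.im ^ 2 ≤ D.r ^ 2 := by
    have : D.nsq z ≤ D.r ^ 2 := h
    unfold nsq at this
    nlinarith [sq_nonneg (z.re - D.c)]
  exact (abs_le_of_sq_le_sq' h1 D.pos.le).2

end Disk

/-- the invariant of a pair of points -/
noncomputable def qq (z w : ℍ) : ℝ := ((z.re - w.re) ^ 2 + (z.im - w.im) ^ 2) / (z.im * w.im)

lemma cosh_dist_qq (z w : ℍ) : Real.cosh (dist z w) = 1 + qq z w / 2 := by
  have h1 := z.im_ne_zero
  have h2 := w.im_ne_zero
  rw [cosh_dist', qq]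
  field_simp
  ring

lemma dist_eq_of_qq {z w z' w' : ℍ} (h : qq z w = qq z' w') : dist z w = dist z' w' := by
  have h1 : Real.cosh (dist z w) = Real.cosh (dist z' w') := by
    rw [cosh_dist_qq, cosh_dist_qq, h]
  exact Real.cosh_strictMonoOn.injOn dist_nonneg dist_nonneg h1

lemma Disk.dist_refl (D : Disk) (z w : ℍ) : dist (D.refl z) (D.refl w) = dist z w := by
  apply dist_eq_of_qq
  have h1 := (D.nsq_pos z).ne'
  have h2 := (D.nsq_pos w).ne'
  have h3 := z.im_ne_zero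
  have h4 := w.im_ne_zero
  have h5 := D.pos.ne'
  unfold qq
  rw [D.refl_re, D.refl_re, D.refl_im, D.refl_im]
  have e : (D.c + D.r ^ 2 * (z.re - D.c) / D.nsq z - (D.c + D.r ^ 2 * (w.re - D.c) / D.nsq w)) ^ 2 +
      (D.r ^ 2 * z.im / D.nsq z - D.r ^ 2 * w.im / D.nsq w) ^ 2 =
      D.r ^ 4 * ((z.re - w.re) ^ 2 + (z.im - w.im) ^ 2) / (D.nsq z * D.nsq w) := by
    field_simp
    have e1 : D.nsq z = (z.re - D.c) ^ 2 + z.im ^ 2 := rfl
    have e2 : D.nsq w = (w.re - D.c) ^ 2 + w.im ^ 2 := rfl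
    rw [e1, e2]
    ring
  rw [e]
  field_simp

lemma Disk.continuous_nsq (D : Disk) : Continuous D.nsq := by
  unfold Disk.nsq
  have h1 := UpperHalfPlane.continuous_re
  have h2 := UpperHalfPlane.continuous_im
  fun_prop

lemma Disk.isometry_refl (D : Disk) : Isometry D.refl := Isometry.of_dist_eq D.dist_refl

lemma Disk.isOpen_inside (D : Disk) : IsOpen {z | D.inside z} :=
  isOpen_lt D.continuous_nsq continuous_const

lemma Disk.isClosed_closed (D : Disk) : IsClosed {z | D.closed z} :=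
  isClosed_le D.continuous_nsq continuous_const

/-- the reflection as a permutation -/
noncomputable def Disk.perm (D : Disk) : Equiv.Perm ℍ := ⟨D.refl, D.refl, D.refl_refl, D.refl_refl⟩

@[simp] lemma Disk.perm_apply (D : Disk) (z : ℍ) : D.perm z = D.refl z := rfl

lemma Disk.perm_mul_self (D : Disk) : D.perm * D.perm = 1 := by
  ext z; simp

lemma Disk.perm_inv (D : Disk) : D.perm⁻¹ = D.perm := by
  rw [inv_eq_iff_mul_eq_one, D.perm_mul_self]

lemma Disk.coe_refl (D : Disk) (z : ℍ) :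
    ((D.refl z : ℍ) : ℂ) = D.c + D.r ^ 2 / ((starRingEnd ℂ) (z : ℂ) - D.c) := by
  have h1 := (D.nsq_pos z).ne'
  have hne : (starRingEnd ℂ) (z : ℂ) - D.c ≠ 0 := by
    intro h
    have := congrArg Complex.im h
    simp at this
    exact z.im_ne_zero this
  have h2 : ((z : ℂ) - D.c) * ((starRingEnd ℂ) (z : ℂ) - D.c) = (D.nsq z : ℂ) := by
    have : (starRingEnd ℂ) (z : ℂ) - D.c = (starRingEnd ℂ) ((z : ℂ) - D.c) := by simp
    rw [this, Complex.mul_conj, Complex.normSq_apply]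
    congr 1
    simp [Disk.nsq, sq]
  have h3 : (D.r : ℂ) ^ 2 / ((starRingEnd ℂ) (z : ℂ) - D.c) =
      D.r ^ 2 * ((z : ℂ) - D.c) / (D.nsq z : ℂ) := by
    rw [← h2]
    have h4 : (z : ℂ) - D.c ≠ 0 := by
      intro h
      have := congrArg Complex.im h
      simp at this
      exact z.im_ne_zero this
    field_simp
  rw [h3]
  apply Complex.ext
  · rw [UpperHalfPlane.coe_re, D.refl_re]
    have : (D.r : ℂ) ^ 2 * ((z : ℂ) - D.c) / (D.nsq z : ℂ) =
      ((D.r ^ 2 / D.nsq z : ℝ) : ℂ) * ((z : ℂ) - D.c) := by push_cast; ring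
    rw [this, Complex.add_re, Complex.re_ofReal_mul]
    simp
    ring
  · rw [UpperHalfPlane.coe_im, D.refl_im]
    have : (D.r : ℂ) ^ 2 * ((z : ℂ) - D.c) / (D.nsq z : ℂ) =
      ((D.r ^ 2 / D.nsq z : ℝ) : ℂ) * ((z : ℂ) - D.c) := by push_cast; ring
    rw [this, Complex.add_im, Complex.im_ofReal_mul]
    simp
    ring

/-- The transformations of the upper half plane given by matrices of determinant one: this is
the group `PSL(2, ℝ)`. -/
noncomputable def PSL : Subgroup (Equiv.Perm ℍ) := (MulAction.toPermHom SL(2, ℝ) ℍ).range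

lemma Disk.mul_mem_PSL (D E : Disk) : D.perm * E.perm ∈ PSL := by
  have h1 := D.pos.ne'
  have h2 := E.pos.ne'
  let M : SL(2, ℝ) := ⟨!![(D.c * E.c + D.r ^ 2 - D.c ^ 2) / (D.r * E.r),
      (D.c * (E.r ^ 2 - E.c ^ 2) - (D.r ^ 2 - D.c ^ 2) * E.c) / (D.r * E.r);
      (E.c - D.c) / (D.r * E.r), (E.r ^ 2 - E.c ^ 2 + D.c * E.c) / (D.r * E.r)], by
    rw [Matrix.det_fin_two_of]
    field_simp
    ring⟩
  refine ⟨M, ?_⟩
  ext1 z
  rw [MulAction.toPermHom_apply, MulAction.toPerm_apply]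
  apply UpperHalfPlane.ext
  rw [coe_specialLinearGroup_apply]
  have e00 : M 0 0 = (D.c * E.c + D.r ^ 2 - D.c ^ 2) / (D.r * E.r) := rfl
  have e01 : M 0 1 = (D.c * (E.r ^ 2 - E.c ^ 2) - (D.r ^ 2 - D.c ^ 2) * E.c) / (D.r * E.r) := rfl
  have e10 : M 1 0 = (E.c - D.c) / (D.r * E.r) := rfl
  have e11 : M 1 1 = (E.r ^ 2 - E.c ^ 2 + D.c * E.c) / (D.r * E.r) := rfl
  rw [e00, e01, e10, e11, Equiv.Perm.mul_apply, Disk.perm_apply, Disk.perm_apply, D.coe_refl,
    E.coe_refl]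
  simp only [Algebra.algebraMap_self, RingHom.id_apply]
  have hz : (z : ℂ) - E.c ≠ 0 := by
    intro h
    have := congrArg Complex.im h
    simp at this
    exact z.im_ne_zero this
  have hconj : (starRingEnd ℂ) ((E.c : ℂ) + (E.r : ℂ) ^ 2 / ((starRingEnd ℂ) (z : ℂ) - E.c)) =
      E.c + E.r ^ 2 / ((z : ℂ) - E.c) := by
    simp
  have hD : (D.r : ℂ) ≠ 0 := by exact_mod_cast h1
  have hE : (E.r : ℂ) ≠ 0 := by exact_mod_cast h2
  rw [hconj]
  have hne : (E.c : ℂ) + E.r ^ 2 / ((z : ℂ) - E.c) - D.c ≠ 0 := by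
    have h3 : (starRingEnd ℂ) (((E.refl z : ℍ) : ℂ)) = E.c + E.r ^ 2 / ((z : ℂ) - E.c) := by
      rw [E.coe_refl]; exact hconj
    rw [← h3]
    intro h
    have := congrArg Complex.im h
    simp at this
    exact (E.refl z).im_ne_zero this
  have hne2 : ((E.c : ℂ) - D.c) * ((z : ℂ) - E.c) + E.r ^ 2 ≠ 0 := by
    intro h
    apply hne
    field_simp
    linear_combination h
  have hden : ((((E.c - D.c) / (D.r * E.r) : ℝ) : ℂ) * (z : ℂ) +
      (((E.r ^ 2 - E.c ^ 2 + D.c * E.c) / (D.r * E.r) : ℝ) : ℂ)) =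
      (((E.c : ℂ) - D.c) * ((z : ℂ) - E.c) + E.r ^ 2) / (D.r * E.r) := by
    push_cast
    field_simp
    ring
  rw [hden]
  have hsimp : (D.c : ℂ) + D.r ^ 2 / ((E.c : ℂ) + E.r ^ 2 / ((z : ℂ) - E.c) - D.c) =
      (D.c * (((E.c : ℂ) - D.c) * ((z : ℂ) - E.c) + E.r ^ 2) + D.r ^ 2 * ((z : ℂ) - E.c)) /
      (((E.c : ℂ) - D.c) * ((z : ℂ) - E.c) + E.r ^ 2) := by
    have : (E.c : ℂ) + E.r ^ 2 / ((z : ℂ) - E.c) - D.c =
      (((E.c : ℂ) - D.c) * ((z : ℂ) - E.c) + E.r ^ 2) / ((z : ℂ) - E.c) := by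
      field_simp
      ring
    rw [this]
    field_simp
  rw [hsimp, div_div_eq_mul_div]
  congr 1
  push_cast
  field_simp
  ring

end Pool.Agent.TH549.Crit
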