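import Pool.Agent.TH549.Crit.Twist

/-!
# Scaling the half disks on the right
-/

set_option autoImplicit false

open UpperHalfPlane Topology

namespace Pool.Agent.TH549.Crit

/-- Scale a half disk if its centre is positive. -/
noncomputable def scaleDisk (κ : ℝ) (D : Disk) : Disk where
  c := if 0 < D.c then Real.exp κ * D.c else D.c
  r := if 0 < D.c then Real.exp κ * D.r else D.r
  pos := by
    have := D.pos
    split_ifs <;> positivity

lemma scaleDisk_c_pos (κ : ℝ) {D : Disk} (h : 0 < D.c) : (scaleDisk κ D).c = Real.exp κ * D.c :=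
  if_pos h

lemma scaleDisk_r_pos (κ : ℝ) {D : Disk} (h : 0 < D.c) : (scaleDisk κ D).r = Real.exp κ * D.r :=
  if_pos h

lemma scaleDisk_of_neg (κ : ℝ) {D : Disk} (h : D.c < 0) : scaleDisk κ D = D := by
  unfold scaleDisk
  cases D with
  | mk c r pos =>
    have h' : ¬ 0 < c := not_lt.mpr h.le
    simp [h']

/-- the half disk stays away from the origin -/
def Disk.Away (D : Disk) : Prop := 2 * D.r ≤ |D.c|

lemma Disk.Away.ne {D : Disk} (h : D.Away) : D.c ≠ 0 := by
  intro h0
  have h1 : 2 * D.r ≤ |D.c| := h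
  have := D.pos
  rw [h0, abs_zero] at h1
  linarith

lemma Disk.Away.scale {D : Disk} (h : D.Away) (κ : ℝ) : (scaleDisk κ D).Away := by
  rcases lt_or_gt_of_ne h.ne with h0 | h0
  · rw [scaleDisk_of_neg κ h0]; exact h
  · have h1 : 2 * D.r ≤ |D.c| := h
    have h2 := Real.exp_pos κ
    unfold Disk.Away
    rw [scaleDisk_c_pos κ h0, scaleDisk_r_pos κ h0, abs_mul, abs_of_pos h2]
    nlinarith

lemma cosarg_right {D : Disk} (h : D.Away) (h0 : 0 < D.c) {z : ℍ} (hz : D.closed z) :
    1 / 2 ≤ cosarg z := by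
  have h1 : 2 * D.r ≤ |D.c| := h
  rw [abs_of_pos h0] at h1
  have h2 : (z.re - D.c) ^ 2 + z.im ^ 2 ≤ D.r ^ 2 := hz
  have h3 := D.pos
  have h4 : D.r ^ 2 ≤ D.c ^ 2 / 4 := by nlinarith
  have h5 : 0 < z.re := by nlinarith [sq_nonneg z.im, sq_nonneg (z.re - D.c)]
  unfold cosarg
  rw [le_div_iff₀ (norm_pos' z)]
  have h6 : ‖(z : ℂ)‖ ^ 2 = z.re ^ 2 + z.im ^ 2 := by
    rw [← Complex.normSq_eq_norm_sq, Complex.normSq_apply]
    change z.re * z.re + z.im * z.im = _
    ring
  have h7 : (1 / 2 * ‖(z : ℂ)‖) ^ 2 ≤ z.re ^ 2 := by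
    rw [mul_pow, h6]
    nlinarith [sq_nonneg (4 * z.re - D.c), sq_nonneg D.c]
  exact (abs_le_of_sq_le_sq' h7 h5.le).2

lemma cosarg_left {D : Disk} (h : D.Away) (h0 : D.c < 0) {z : ℍ} (hz : D.closed z) :
    cosarg z ≤ -(1 / 2) := by
  have h1 : 2 * D.r ≤ |D.c| := h
  rw [abs_of_neg h0] at h1
  have h2 : (z.re - D.c) ^ 2 + z.im ^ 2 ≤ D.r ^ 2 := hz
  have h3 := D.pos
  have h4 : D.r ^ 2 ≤ D.c ^ 2 / 4 := by nlinarith
  have h5 : z.re < 0 := by nlinarith [sq_nonneg z.im, sq_nonneg (z.re - D.c)]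
  unfold cosarg
  rw [div_le_iff₀ (norm_pos' z)]
  have h6 : ‖(z : ℂ)‖ ^ 2 = z.re ^ 2 + z.im ^ 2 := by
    rw [← Complex.normSq_eq_norm_sq, Complex.normSq_apply]
    change z.re * z.re + z.im * z.im = _
    ring
  have h7 : (1 / 2 * ‖(z : ℂ)‖) ^ 2 ≤ (-z.re) ^ 2 := by
    rw [mul_pow, h6]
    nlinarith [sq_nonneg (4 * z.re - D.c), sq_nonneg D.c]
  have := (abs_le_of_sq_le_sq' h7 (by linarith)).2
  linarith

lemma nsq_scale_tw (κ : ℝ) {D : Disk} (h0 : 0 < D.c) {z : ℍ} (hz : 1 / 2 ≤ cosarg z) :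
    (scaleDisk κ D).nsq (tw κ z) = Real.exp κ ^ 2 * D.nsq z := by
  unfold Disk.nsq
  rw [scaleDisk_c_pos κ h0, tw_re, tw_im, chi_eq_one hz, mul_one]
  ring

lemma scaleDisk_inside_iff (κ : ℝ) {D : Disk} (h : D.Away) (z : ℍ) :
    (scaleDisk κ D).inside (tw κ z) ↔ D.inside z := by
  rcases lt_or_gt_of_ne h.ne with h0 | h0
  · rw [scaleDisk_of_neg κ h0]
    constructor
    · intro h1
      have h2 := cosarg_left h h0 h1.closed
      rw [cosarg_tw] at h2
      rwa [tw_eq_self h2] at h1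
    · intro h1
      have h2 := cosarg_left h h0 h1.closed
      rwa [tw_eq_self h2]
  · have key : 1 / 2 ≤ cosarg z → ((scaleDisk κ D).inside (tw κ z) ↔ D.inside z) := by
      intro hz
      unfold Disk.inside
      rw [nsq_scale_tw κ h0 hz, scaleDisk_r_pos κ h0, mul_pow]
      have := Real.exp_pos κ
      exact mul_lt_mul_iff_right₀ (by positivity)
    constructor
    · intro h1
      have h2 := cosarg_right (h.scale κ) (by rw [scaleDisk_c_pos κ h0]; positivity) h1.closed
      rw [cosarg_tw] at h2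
      exact (key h2).mp h1
    · intro h1
      exact (key (cosarg_right h h0 h1.closed)).mpr h1

lemma scaleDisk_closed_iff (κ : ℝ) {D : Disk} (h : D.Away) (z : ℍ) :
    (scaleDisk κ D).closed (tw κ z) ↔ D.closed z := by
  rcases lt_or_gt_of_ne h.ne with h0 | h0
  · rw [scaleDisk_of_neg κ h0]
    constructor
    · intro h1
      have h2 := cosarg_left h h0 h1
      rw [cosarg_tw] at h2
      rwa [tw_eq_self h2] at h1
    · intro h1
      have h2 := cosarg_left h h0 h1
      rwa [tw_eq_self h2]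
  · have key : 1 / 2 ≤ cosarg z → ((scaleDisk κ D).closed (tw κ z) ↔ D.closed z) := by
      intro hz
      unfold Disk.closed
      rw [nsq_scale_tw κ h0 hz, scaleDisk_r_pos κ h0, mul_pow]
      have := Real.exp_pos κ
      exact mul_le_mul_iff_right₀ (by positivity)
    constructor
    · intro h1
      have h2 := cosarg_right (h.scale κ) (by rw [scaleDisk_c_pos κ h0]; positivity) h1
      rw [cosarg_tw] at h2
      exact (key h2).mp h1
    · intro h1
      exact (key (cosarg_right h h0 h1)).mpr h1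

namespace Config

variable (C : Config)

/-- Scaling the half disks on the right by `exp κ`. -/
noncomputable def scale (κ : ℝ) (hA : ∀ n, (C.D n).Away) : Config where
  D n := scaleDisk κ (C.D n)
  disj n m hnm := by
    have hd := C.disj n m hnm
    have hn : 2 * (C.D n).r ≤ |(C.D n).c| := hA n
    have hm : 2 * (C.D m).r ≤ |(C.D m).c| := hA m
    have e := Real.exp_pos κ
    have pn := (C.D n).pos
    have pm := (C.D m).pos
    rcases lt_or_gt_of_ne (hA n).ne with h1 | h1 <;> rcases lt_or_gt_of_ne (hA m).ne with h2 | h2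
    · rw [scaleDisk_of_neg κ h1, scaleDisk_of_neg κ h2]; exact hd
    · rw [scaleDisk_of_neg κ h1, scaleDisk_c_pos κ h2, scaleDisk_r_pos κ h2]
      rw [abs_of_neg h1] at hn
      rw [abs_of_pos h2] at hm
      have h3 : (C.D n).c - Real.exp κ * (C.D m).c < 0 := by nlinarith
      rw [abs_of_neg h3]
      nlinarith
    · rw [scaleDisk_of_neg κ h2, scaleDisk_c_pos κ h1, scaleDisk_r_pos κ h1]
      rw [abs_of_pos h1] at hn
      rw [abs_of_neg h2] at hm
      have h3 : 0 < Real.exp κ * (C.D n).c - (C.D m).c := by nlinarith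
      rw [abs_of_pos h3]
      nlinarith
    · rw [scaleDisk_c_pos κ h1, scaleDisk_r_pos κ h1, scaleDisk_c_pos κ h2, scaleDisk_r_pos κ h2,
        ← mul_sub, abs_mul, abs_of_pos e]
      nlinarith
  fin δ hδ := by
    have e := Real.exp_pos κ
    refine ((C.fin δ hδ).union (C.fin (δ / Real.exp κ) (div_pos hδ e))).subset ?_
    intro n hn
    rcases lt_or_gt_of_ne (hA n).ne with h1 | h1
    · left
      rw [Set.mem_setOf_eq, scaleDisk_of_neg κ h1] at hn
      exact hn
    · right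
      rw [Set.mem_setOf_eq, scaleDisk_r_pos κ h1] at hn
      rw [Set.mem_setOf_eq, div_le_iff₀ e, mul_comm]
      exact hn

lemma scale_D (κ : ℝ) (hA : ∀ n, (C.D n).Away) (n : ℕ) :
    (C.scale κ hA).D n = scaleDisk κ (C.D n) := rfl

/-- The angular stretch matches the two configurations. -/
noncomputable def compat (κ : ℝ) (hA : ∀ n, (C.D n).Away) : Compat C (C.scale κ hA) where
  σ := twEquiv κ
  inside_iff n z := scaleDisk_inside_iff κ (hA n) z
  closed_iff n z := scaleDisk_closed_iff κ (hA n) z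

/-- the Lipschitz constant -/
noncomputable def lip (κ : ℝ) : ℝ := Real.exp |κ| * (Real.exp |κ| * (1 + 2 * |κ|))

lemma compat_sh (κ : ℝ) (hA : ∀ n, (C.D n).Away) (z w : ℍ) :
    sh ((C.compat κ hA).σ z) ((C.compat κ hA).σ w) ≤ lip κ * sh z w := sh_tw_le κ z w

lemma compat_symm_sh (κ : ℝ) (hA : ∀ n, (C.D n).Away) (z w : ℍ) :
    sh ((C.compat κ hA).symm.σ z) ((C.compat κ hA).symm.σ w) ≤ lip κ * sh z w := by
  have := sh_tw_le (-κ) z w
  rw [abs_neg] at this
  exact this

end Config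

end Pool.Agent.TH549.Crit
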