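import Pool.Agent.TH549.Crit.Ext

/-!
# The angular stretch of the upper half plane
-/

set_option autoImplicit false

open UpperHalfPlane Topology

namespace Pool.Agent.TH549.Crit

/-- the cosine of the argument -/
noncomputable def cosarg (z : ℍ) : ℝ := z.re / ‖(z : ℂ)‖

/-- the cut-off function -/
noncomputable def chi (z : ℍ) : ℝ := max 0 (min 1 (cosarg z + 1 / 2))

lemma chi_nonneg (z : ℍ) : 0 ≤ chi z := le_max_left _ _

lemma chi_le_one (z : ℍ) : chi z ≤ 1 := max_le zero_le_one (min_le_left _ _)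

lemma norm_pos' (z : ℍ) : 0 < ‖(z : ℂ)‖ := norm_pos_iff.mpr z.ne_zero

/-- the angular stretch -/
noncomputable def tw (κ : ℝ) (z : ℍ) : ℍ :=
  ⟨⟨Real.exp (κ * chi z) * z.re, Real.exp (κ * chi z) * z.im⟩, by
    have := z.im_pos
    change 0 < Real.exp (κ * chi z) * z.im
    positivity⟩

lemma tw_re (κ : ℝ) (z : ℍ) : (tw κ z).re = Real.exp (κ * chi z) * z.re := rfl

lemma tw_im (κ : ℝ) (z : ℍ) : (tw κ z).im = Real.exp (κ * chi z) * z.im := rfl

lemma coe_tw (κ : ℝ) (z : ℍ) : ((tw κ z : ℍ) : ℂ) = (Real.exp (κ * chi z) : ℝ) * (z : ℂ) := by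
  apply Complex.ext
  · rw [Complex.re_ofReal_mul]; rfl
  · rw [Complex.im_ofReal_mul]; rfl

lemma norm_tw (κ : ℝ) (z : ℍ) : ‖((tw κ z : ℍ) : ℂ)‖ = Real.exp (κ * chi z) * ‖(z : ℂ)‖ := by
  rw [coe_tw, norm_mul, Complex.norm_real, Real.norm_of_nonneg (Real.exp_pos _).le]

lemma cosarg_tw (κ : ℝ) (z : ℍ) : cosarg (tw κ z) = cosarg z := by
  unfold cosarg
  rw [norm_tw, tw_re, mul_div_mul_left _ _ (Real.exp_pos _).ne']

lemma chi_tw (κ : ℝ) (z : ℍ) : chi (tw κ z) = chi z := by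
  unfold chi; rw [cosarg_tw]

lemma tw_neg_tw (κ : ℝ) (z : ℍ) : tw (-κ) (tw κ z) = z := by
  apply UpperHalfPlane.ext_re_im
  · rw [tw_re, chi_tw, tw_re, ← mul_assoc, ← Real.exp_add]; simp
  · rw [tw_im, chi_tw, tw_im, ← mul_assoc, ← Real.exp_add]; simp

lemma tw_eq_self {κ : ℝ} {z : ℍ} (h : cosarg z ≤ -(1 / 2)) : tw κ z = z := by
  have h1 : chi z = 0 := by
    unfold chi
    exact max_eq_left ((min_le_right _ _).trans (by linarith))
  apply UpperHalfPlane.ext_re_im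
  · rw [tw_re, h1]; simp
  · rw [tw_im, h1]; simp

lemma chi_eq_one {z : ℍ} (h : 1 / 2 ≤ cosarg z) : chi z = 1 := by
  unfold chi
  rw [min_eq_left (by linarith)]
  norm_num

/-- the angular stretch as a bijection -/
noncomputable def twEquiv (κ : ℝ) : ℍ ≃ ℍ where
  toFun := tw κ
  invFun := tw (-κ)
  left_inv := tw_neg_tw κ
  right_inv z := by
    have := tw_neg_tw (-κ) z
    rwa [neg_neg] at this

lemma abs_cosarg_sub (z w : ℍ) :
    |cosarg z - cosarg w| * ‖(w : ℂ)‖ ≤ 2 * ‖(z : ℂ) - w‖ := by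
  have hz := norm_pos' z
  have hw := norm_pos' w
  have h1 : (cosarg z - cosarg w) * ‖(w : ℂ)‖ =
      z.re * (‖(w : ℂ)‖ - ‖(z : ℂ)‖) / ‖(z : ℂ)‖ + (z.re - w.re) := by
    unfold cosarg
    field_simp
    ring
  have h2 : |z.re| ≤ ‖(z : ℂ)‖ := Complex.abs_re_le_norm (z : ℂ)
  have h3 : |z.re * (‖(w : ℂ)‖ - ‖(z : ℂ)‖) / ‖(z : ℂ)‖| ≤ ‖(z : ℂ) - w‖ := by
    rw [abs_div, abs_mul, abs_of_pos hz, div_le_iff₀ hz, mul_comm]
    have h4 : |‖(w : ℂ)‖ - ‖(z : ℂ)‖| ≤ ‖(z : ℂ) - w‖ := by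
      rw [norm_sub_rev]; exact abs_norm_sub_norm_le _ _
    exact mul_le_mul h4 h2 (abs_nonneg _) (norm_nonneg _)
  have h5 : |z.re - w.re| ≤ ‖(z : ℂ) - w‖ := by
    have := Complex.abs_re_le_norm ((z : ℂ) - w)
    simpa using this
  calc |cosarg z - cosarg w| * ‖(w : ℂ)‖ = |(cosarg z - cosarg w) * ‖(w : ℂ)‖| := by
        rw [abs_mul, abs_of_pos hw]
    _ ≤ _ := by rw [h1]; exact (abs_add_le _ _).trans (by linarith)

lemma abs_chi_sub (z w : ℍ) : |chi z - chi w| ≤ |cosarg z - cosarg w| := by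
  unfold chi
  have h1 := abs_max_sub_max_le_max 0 (min 1 (cosarg z + 1 / 2)) 0 (min 1 (cosarg w + 1 / 2))
  have h2 := abs_min_sub_min_le_max 1 (cosarg z + 1 / 2) 1 (cosarg w + 1 / 2)
  have h3 : cosarg z + 1 / 2 - (cosarg w + 1 / 2) = cosarg z - cosarg w := by ring
  rw [h3, sub_self, abs_zero] at h2
  rw [sub_self, abs_zero] at h1
  exact h1.trans (max_le (abs_nonneg _) (h2.trans (max_le (abs_nonneg _) le_rfl)))

lemma exp_sub_exp_le {a b M : ℝ} (ha : a ≤ M) (hb : b ≤ M) :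
    |Real.exp a - Real.exp b| ≤ Real.exp M * |a - b| := by
  wlog h : b ≤ a generalizing a b
  · rw [abs_sub_comm, abs_sub_comm a b]
    exact this hb ha (le_of_not_ge h)
  · rw [abs_of_nonneg (by linarith [Real.exp_le_exp.mpr h]), abs_of_nonneg (by linarith)]
    have h1 : Real.exp a - Real.exp b = Real.exp a * (1 - Real.exp (b - a)) := by
      rw [mul_sub, ← Real.exp_add]; ring_nf
    have h2 : 1 - Real.exp (b - a) ≤ a - b := by
      have := Real.add_one_le_exp (b - a)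
      linarith
    have h3 : 0 ≤ 1 - Real.exp (b - a) := by
      have : Real.exp (b - a) ≤ 1 := Real.exp_le_one_iff.mpr (by linarith)
      linarith
    rw [h1]
    exact mul_le_mul (Real.exp_le_exp.mpr ha) h2 h3 (Real.exp_pos _).le

lemma norm_tw_sub (κ : ℝ) (z w : ℍ) :
    ‖((tw κ z : ℍ) : ℂ) - ((tw κ w : ℍ) : ℂ)‖ ≤
      Real.exp |κ| * (1 + 2 * |κ|) * ‖(z : ℂ) - w‖ := by
  have hkz : κ * chi z ≤ |κ| := by
    have h1 := chi_nonneg z
    have h2 := chi_le_one z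
    have h3 := le_abs_self κ
    have h4 := abs_nonneg κ
    nlinarith
  have hkw : κ * chi w ≤ |κ| := by
    have h1 := chi_nonneg w
    have h2 := chi_le_one w
    have h3 := le_abs_self κ
    have h4 := abs_nonneg κ
    nlinarith
  have h1 : ((tw κ z : ℍ) : ℂ) - ((tw κ w : ℍ) : ℂ) =
      (Real.exp (κ * chi z) : ℝ) * ((z : ℂ) - w) +
      ((Real.exp (κ * chi z) - Real.exp (κ * chi w) : ℝ) : ℂ) * (w : ℂ) := by
    rw [coe_tw, coe_tw]
    push_cast
    ring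
  rw [h1]
  refine (norm_add_le _ _).trans ?_
  rw [norm_mul, norm_mul, Complex.norm_real, Complex.norm_real,
    Real.norm_of_nonneg (Real.exp_pos _).le, Real.norm_eq_abs]
  have h2 : Real.exp (κ * chi z) * ‖(z : ℂ) - w‖ ≤ Real.exp |κ| * ‖(z : ℂ) - w‖ :=
    mul_le_mul_of_nonneg_right (Real.exp_le_exp.mpr hkz) (norm_nonneg _)
  have h3 := exp_sub_exp_le hkz hkw
  have h4 : |κ * chi z - κ * chi w| ≤ |κ| * |cosarg z - cosarg w| := by
    rw [← mul_sub, abs_mul]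
    exact mul_le_mul_of_nonneg_left (abs_chi_sub z w) (abs_nonneg _)
  have h5 := abs_cosarg_sub z w
  have h6 : |Real.exp (κ * chi z) - Real.exp (κ * chi w)| * ‖(w : ℂ)‖ ≤
      Real.exp |κ| * (2 * |κ|) * ‖(z : ℂ) - w‖ := by
    calc |Real.exp (κ * chi z) - Real.exp (κ * chi w)| * ‖(w : ℂ)‖
        ≤ (Real.exp |κ| * (|κ| * |cosarg z - cosarg w|)) * ‖(w : ℂ)‖ := by
          refine mul_le_mul_of_nonneg_right (h3.trans ?_) (norm_nonneg _)
          exact mul_le_mul_of_nonneg_left h4 (Real.exp_pos _).le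
      _ = Real.exp |κ| * |κ| * (|cosarg z - cosarg w| * ‖(w : ℂ)‖) := by ring
      _ ≤ Real.exp |κ| * |κ| * (2 * ‖(z : ℂ) - w‖) := by
          refine mul_le_mul_of_nonneg_left h5 (by positivity)
      _ = _ := by ring
  linarith

/-- **The stretch is Lipschitz.** -/
theorem sh_tw_le (κ : ℝ) (z w : ℍ) :
    sh (tw κ z) (tw κ w) ≤ Real.exp |κ| * (Real.exp |κ| * (1 + 2 * |κ|)) * sh z w := by
  unfold sh
  rw [sinh_half_dist, sinh_half_dist, dist_eq_norm, dist_eq_norm, tw_im, tw_im]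
  have hz := z.im_pos
  have hw := w.im_pos
  have e1 : Real.exp (κ * chi z) * z.im * (Real.exp (κ * chi w) * w.im) =
      (Real.exp ((κ * chi z + κ * chi w) / 2)) ^ 2 * (z.im * w.im) := by
    rw [← Real.exp_nat_mul, mul_mul_mul_comm, ← Real.exp_add]
    congr 2
    push_cast
    ring
  rw [e1, Real.sqrt_mul (by positivity), Real.sqrt_sq (Real.exp_pos _).le]
  have h1 := norm_tw_sub κ z w
  have h2 : Real.exp (-((κ * chi z + κ * chi w) / 2)) ≤ Real.exp |κ| := by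
    apply Real.exp_le_exp.mpr
    have h3 := chi_nonneg w
    have h4 := chi_le_one w
    have h5 := neg_abs_le κ
    have h6 := abs_nonneg κ
    have h7 := chi_nonneg z
    have h8 := chi_le_one z
    nlinarith
  have h3 : 0 < Real.sqrt (z.im * w.im) := Real.sqrt_pos.mpr (by positivity)
  have h4 : ‖((tw κ z : ℍ) : ℂ) - ((tw κ w : ℍ) : ℂ)‖ /
      (2 * (Real.exp ((κ * chi z + κ * chi w) / 2) * Real.sqrt (z.im * w.im))) =
      Real.exp (-((κ * chi z + κ * chi w) / 2)) * (‖((tw κ z : ℍ) : ℂ) - ((tw κ w : ℍ) : ℂ)‖ /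
      (2 * Real.sqrt (z.im * w.im))) := by
    rw [Real.exp_neg]
    field_simp
  rw [h4, mul_assoc]
  refine mul_le_mul h2 ?_ (by positivity) (Real.exp_pos _).le
  rw [← mul_div_assoc]
  exact div_le_div_of_nonneg_right h1 (by positivity)

end Pool.Agent.TH549.Crit
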