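import Pool.Agent.TH549.Crit.Group

/-!
# The upper bound for the critical exponent
-/

set_option autoImplicit false

open UpperHalfPlane Topology
open scoped ENNReal

namespace Pool.Agent.TH549.Crit

/-- The critical exponent of a group of transformations of the upper half plane. -/
noncomputable def critExp (G : Subgroup (Equiv.Perm ℍ)) : EReal :=
  ⨅ (s : ℝ) (_ : 0 < s ∧ Summable fun g : G => Real.exp (-s * dist I ((g : Equiv.Perm ℍ) I))),
    (s : EReal)

lemma tsum_list (f : List ℕ → ℝ≥0∞) : ∑' l, f l = f [] + ∑' i, ∑' l, f (i :: l) := by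
  rw [ENNReal.tsum_eq_add_tsum_ite []]
  congr 1
  let g : ℕ × List ℕ → List ℕ := fun p => p.1 :: p.2
  have hg : Function.Injective g := by
    rintro ⟨a, l⟩ ⟨b, m⟩ h
    have h1 : a :: l = b :: m := h
    rw [List.cons.injEq] at h1
    exact Prod.ext h1.1 h1.2
  rw [← ENNReal.tsum_prod, ← hg.tsum_eq]
  · refine tsum_congr fun p => ?_
    have : g p ≠ [] := List.cons_ne_nil _ _
    rw [if_neg this]
  · intro l hl
    rw [Function.mem_support] at hl
    cases l with
    | nil => simp at hl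
    | cons i l => exact ⟨(i, l), rfl⟩

/-- Weights of words. -/
noncomputable def wt (b : ℕ → ℝ≥0∞) (A : ℕ → ℕ → ℝ≥0∞) : List ℕ → ℝ≥0∞
  | [] => 1
  | [i] => b i
  | i :: j :: l => A i j * wt b A (j :: l)

section weights

variable (b : ℕ → ℝ≥0∞) (A : ℕ → ℕ → ℝ≥0∞)

lemma wt_bounded (Φ : ℕ → ℝ≥0∞) (h : ∀ i, b i + ∑' j, A i j * Φ j ≤ Φ i) (N i : ℕ) :
    ∑' l : List ℕ, (if l.length < N then wt b A (i :: l) else 0) ≤ Φ i := by
  induction N generalizing i with
  | zero => simp
  | succ N ih =>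
    rw [tsum_list]
    have h1 : ∀ j, ∑' l : List ℕ, (if (j :: l).length < N + 1 then wt b A (i :: j :: l) else 0) =
        A i j * ∑' l : List ℕ, (if l.length < N then wt b A (j :: l) else 0) := by
      intro j
      rw [← ENNReal.tsum_mul_left]
      refine tsum_congr fun l => ?_
      by_cases hl : l.length < N
      · rw [if_pos (by simpa using hl), if_pos hl]; rfl
      · rw [if_neg (by simpa using hl), if_neg hl, mul_zero]
    have h2 : ∑' j, ∑' l : List ℕ,
        (if (j :: l).length < N + 1 then wt b A (i :: j :: l) else 0) ≤ ∑' j, A i j * Φ j := by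
      refine ENNReal.tsum_le_tsum fun j => ?_
      rw [h1 j]
      exact mul_le_mul_right (ih j) _
    have h3 : (if ([] : List ℕ).length < N + 1 then wt b A [i] else 0) = b i := by
      rw [if_pos (by simp)]; rfl
    rw [h3]
    exact (add_le_add_right h2 _).trans (h i)

lemma wt_total (Φ : ℕ → ℝ≥0∞) (h : ∀ i, b i + ∑' j, A i j * Φ j ≤ Φ i) (i : ℕ) :
    ∑' l : List ℕ, wt b A (i :: l) ≤ Φ i := by
  rw [ENNReal.tsum_eq_iSup_sum]
  refine iSup_le fun S => ?_
  refine le_trans ?_ (wt_bounded b A Φ h (S.sup List.length + 1) i)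
  refine le_trans ?_ (ENNReal.sum_le_tsum S)
  refine Finset.sum_le_sum fun l hl => ?_
  rw [if_pos (Nat.lt_succ_of_le (Finset.le_sup (f := List.length) hl))]

lemma wt_sum_ne_top (Φ : ℕ → ℝ≥0∞) (h : ∀ i, b i + ∑' j, A i j * Φ j ≤ Φ i)
    (hΦ : ∑' i, Φ i ≠ ∞) : ∑' l : List ℕ, wt b A l ≠ ∞ := by
  rw [tsum_list]
  have h1 : ∑' i, ∑' l : List ℕ, wt b A (i :: l) ≤ ∑' i, Φ i :=
    ENNReal.tsum_le_tsum fun i => wt_total b A Φ h i
  have h2 : wt b A [] = 1 := rfl
  rw [h2]
  exact ENNReal.add_ne_top.mpr ⟨ENNReal.one_ne_top, ne_top_of_le_ne_top hΦ h1⟩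

end weights

lemma exp_neg_dist_le (z : ℍ) : Real.exp (-dist I z) ≤ 2 * z.im := by
  have h1 := cosh_dist_qq I z
  have h2 : 1 + qq I z / 2 = (z.re ^ 2 + z.im ^ 2 + 1) / (2 * z.im) := by
    have h3 := z.im_ne_zero
    unfold qq
    rw [I_re, I_im]
    field_simp
    ring
  have hz := z.im_pos
  have h4 : 1 / (2 * z.im) ≤ Real.exp (dist I z) := by
    have h5 : Real.cosh (dist I z) ≤ Real.exp (dist I z) := by
      rw [Real.cosh_eq]
      have : Real.exp (-dist I z) ≤ Real.exp (dist I z) :=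
        Real.exp_le_exp.mpr (by linarith [dist_nonneg (x := I) (y := z)])
      linarith
    refine le_trans ?_ h5
    rw [h1, h2]
    exact div_le_div_of_nonneg_right (by nlinarith [sq_nonneg z.re, sq_nonneg z.im]) (by positivity)
  rw [Real.exp_neg]
  rw [div_le_iff₀ (by positivity)] at h4
  rw [inv_le_iff_one_le_mul₀ (Real.exp_pos _)]
  linarith

namespace Config

variable (C : Config)

/-- weights of the letters -/
noncomputable def bW (s : ℝ) (i : ℕ) : ℝ≥0∞ := ENNReal.ofReal (((C.D i).r ^ 2) ^ s)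

/-- weights of the transitions -/
noncomputable def aW (s : ℝ) (i j : ℕ) : ℝ≥0∞ :=
  if i = j then 0 else
    ENNReal.ofReal ((((C.D i).r / (|(C.D i).c - (C.D j).c| - (C.D j).r)) ^ 2) ^ s)

lemma gap_pos {i j : ℕ} (h : i ≠ j) : 0 < |(C.D i).c - (C.D j).c| - (C.D j).r := by
  have := C.disj i j h
  have := (C.D i).pos
  linarith

lemma im_pow_le_wt {s : ℝ} (hs : 0 < s) (hI : ∀ n, ¬ (C.D n).closed I) (i : ℕ) (l : List ℕ)
    (h : Red (i :: l)) :
    ENNReal.ofReal ((C.elt (i :: l) I).im ^ s) ≤ wt (C.bW s) (C.aW s) (i :: l) := by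
  induction l generalizing i with
  | nil =>
    change _ ≤ C.bW s i
    unfold bW
    apply ENNReal.ofReal_le_ofReal
    refine Real.rpow_le_rpow (UpperHalfPlane.im_pos _).le ?_ hs.le
    rw [elt_cons_apply, Disk.refl_im]
    change (C.D i).r ^ 2 * I.im / (C.D i).nsq I ≤ _
    have h1 : 1 ≤ (C.D i).nsq I := by
      unfold Disk.nsq
      rw [I_im]
      nlinarith [sq_nonneg (I.re - (C.D i).c)]
    rw [I_im, mul_one]
    exact div_le_self (sq_nonneg _) h1
  | cons j l ih =>
    change _ ≤ C.aW s i j * wt (C.bW s) (C.aW s) (j :: l)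
    have h1 := ih j h.2
    have h2 := C.inside_elt hI j l h.2
    have h3 := C.far h2.closed h.1
    have h4 := C.gap_pos h.1
    refine le_trans ?_ (mul_le_mul_right h1 _)
    unfold aW
    rw [if_neg h.1, ← ENNReal.ofReal_mul (by positivity)]
    apply ENNReal.ofReal_le_ofReal
    rw [← Real.mul_rpow (by positivity) (UpperHalfPlane.im_pos _).le]
    refine Real.rpow_le_rpow (UpperHalfPlane.im_pos _).le ?_ hs.le
    rw [elt_cons_apply, Disk.refl_im]
    have h5 := UpperHalfPlane.im_pos (C.elt (j :: l) I)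
    rw [div_pow, div_mul_eq_mul_div]
    exact div_le_div_of_nonneg_left (by positivity) (by positivity) h3

/-- **Convergence of the Poincaré series.** -/
theorem summable_of_potential {s : ℝ} (hs : 0 < s) (hI : ∀ n, ¬ (C.D n).closed I)
    (Φ : ℕ → ℝ≥0∞) (h : ∀ i, C.bW s i + ∑' j, C.aW s i j * Φ j ≤ Φ i) (hΦ : ∑' i, Φ i ≠ ∞) :
    Summable fun g : C.grp => Real.exp (-s * dist I ((g : Equiv.Perm ℍ) I)) := by
  have hw := wt_sum_ne_top _ _ Φ h hΦ
  have h1 := ENNReal.summable_toReal hw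
  have h2 : ∀ g : C.grp, ∃ l, Red l ∧ C.elt l = g := by
    intro g
    obtain ⟨l, hl, _, hg⟩ := C.exists_word _ g.2
    exact ⟨l, hl, hg⟩
  choose L hL hLg using h2
  have hinj : Function.Injective L := by
    intro g g' h
    apply Subtype.ext
    rw [← hLg, ← hLg, h]
  have h3 := (h1.comp_injective hinj).mul_left (2 ^ s)
  refine Summable.of_nonneg_of_le (fun g => (Real.exp_pos _).le) (fun g => ?_) h3
  change _ ≤ 2 ^ s * (wt (C.bW s) (C.aW s) (L g)).toReal
  have hne : wt (C.bW s) (C.aW s) (L g) ≠ ∞ :=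
    ne_top_of_le_ne_top hw (ENNReal.le_tsum _)
  have e1 : Real.exp (-s * dist I ((g : Equiv.Perm ℍ) I)) =
      Real.exp (-dist I ((g : Equiv.Perm ℍ) I)) ^ s := by
    rw [← Real.exp_mul]; ring_nf
  have e2 : Real.exp (-dist I ((g : Equiv.Perm ℍ) I)) ^ s ≤
      (2 * ((g : Equiv.Perm ℍ) I).im) ^ s :=
    Real.rpow_le_rpow (Real.exp_pos _).le (exp_neg_dist_le _) hs.le
  rw [e1]
  have hg := hLg g
  have hr := hL g
  cases hLg' : L g with
  | nil =>
    rw [hLg', elt_nil] at hg
    rw [← hg]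
    have h4 : wt (C.bW s) (C.aW s) [] = 1 := rfl
    rw [h4]
    have h5 : ((1 : Equiv.Perm ℍ) I) = I := rfl
    rw [h5, dist_self]
    simp only [neg_zero, Real.exp_zero, Real.one_rpow, ENNReal.toReal_one, mul_one]
    exact Real.one_le_rpow one_le_two hs.le
  | cons i l =>
    rw [hLg'] at hg hr hne
    refine e2.trans ?_
    rw [Real.mul_rpow (by norm_num) (UpperHalfPlane.im_pos _).le]
    refine mul_le_mul_of_nonneg_left ?_ (by positivity)
    have h4 := C.im_pow_le_wt hs hI i l hr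
    rw [hg] at h4
    exact (ENNReal.ofReal_le_iff_le_toReal hne).mp h4

lemma critExp_le {G : Subgroup (Equiv.Perm ℍ)} {s : ℝ} (hs : 0 < s)
    (h : Summable fun g : G => Real.exp (-s * dist I ((g : Equiv.Perm ℍ) I))) :
    critExp G ≤ (s : EReal) := iInf₂_le s ⟨hs, h⟩

end Config

end Pool.Agent.TH549.Crit
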